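import Mathlib
set_option autoImplicit false
open Complex Metric Set Filter Topology

namespace Pool.Agent.Helper404.Spir

noncomputable def m : ℂ := -(41 + I) / 29
noncomputable def a1 : ℂ := 1 + I
noncomputable def a2 : ℂ := (-12 + 28 * I) / 29
noncomputable def a3 : ℂ := (17 + 57 * I) / 58
noncomputable def A1 : ℂ := 1 - I
noncomputable def A2 : ℂ := (-12 - 28 * I) / 29
noncomputable def A3 : ℂ := (17 - 57 * I) / 58

/-- V = i Π (1 - a_j y)(1 + conj(a_j) y) -/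
noncomputable def V (y : ℂ) : ℂ :=
  I * ((1 - a1 * y) * (1 + A1 * y) * ((1 - a2 * y) * (1 + A2 * y)) * ((1 - a3 * y) * (1 + A3 * y)))

/-- primitive of y (1 + A1 y)(1 + A2 y)(1 + A3 y) -/
noncomputable def Φ (y : ℂ) : ℂ :=
  y ^ 2 / 2 + (A1 + A2 + A3) * y ^ 3 / 3 + (A1 * A2 + A1 * A3 + A2 * A3) * y ^ 4 / 4
    + A1 * A2 * A3 * y ^ 5 / 5

noncomputable def v (y : ℂ) : ℂ := I * (m ^ 2 / 2) * (Φ (1 / a1) - Φ y)

theorem j2_norm_le {z : ℂ} {c : ℝ} (hc : 0 ≤ c) (h : z.re ^ 2 + z.im ^ 2 ≤ c ^ 2) : ‖z‖ ≤ c := by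
  have h1 : ‖z‖ ^ 2 ≤ c ^ 2 := by
    rw [Complex.sq_norm, Complex.normSq_apply]; nlinarith
  exact (pow_le_pow_iff_left₀ (norm_nonneg z) hc two_ne_zero).1 h1

theorem j2_a1 : a1 = ⟨1, 1⟩ := by apply Complex.ext <;> simp [a1]
theorem j2_A1 : A1 = ⟨1, -1⟩ := by apply Complex.ext <;> simp [A1]
theorem j2_a2 : a2 = ⟨-12 / 29, 28 / 29⟩ := by
  apply Complex.ext <;> simp [a2]
theorem j2_A2 : A2 = ⟨-12 / 29, -28 / 29⟩ := by
  apply Complex.ext <;> simp [A2]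
theorem j2_a3 : a3 = ⟨17 / 58, 57 / 58⟩ := by
  apply Complex.ext <;> simp [a3]
theorem j2_A3 : A3 = ⟨17 / 58, -57 / 58⟩ := by
  apply Complex.ext <;> simp [A3]
theorem j2_m : m = ⟨-41 / 29, -1 / 29⟩ := by
  apply Complex.ext <;> simp [m]

theorem j2_na1 : ‖a1‖ ≤ 3 / 2 := j2_norm_le (by norm_num) (by rw [j2_a1]; norm_num)
theorem j2_nA1 : ‖A1‖ ≤ 3 / 2 := j2_norm_le (by norm_num) (by rw [j2_A1]; norm_num)
theorem j2_na2 : ‖a2‖ ≤ 3 / 2 := j2_norm_le (by norm_num) (by rw [j2_a2]; norm_num)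
theorem j2_nA2 : ‖A2‖ ≤ 3 / 2 := j2_norm_le (by norm_num) (by rw [j2_A2]; norm_num)
theorem j2_na3 : ‖a3‖ ≤ 3 / 2 := j2_norm_le (by norm_num) (by rw [j2_a3]; norm_num)
theorem j2_nA3 : ‖A3‖ ≤ 3 / 2 := j2_norm_le (by norm_num) (by rw [j2_A3]; norm_num)

theorem j2_nm : ‖m ^ 2 / 2‖ ≤ 1 := by
  have h : ‖m‖ ^ 2 = 2 := by
    rw [Complex.sq_norm, Complex.normSq_apply, j2_m]; norm_num
  rw [norm_div, norm_pow, h]
  norm_num

theorem j2_Phi (y : ℂ) : ‖Φ y‖ ≤ ‖y‖ ^ 2 / 2 + 9 / 2 * ‖y‖ ^ 3 / 3 + 27 / 4 * ‖y‖ ^ 4 / 4 +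
    27 / 8 * ‖y‖ ^ 5 / 5 := by
  have n1 := j2_nA1
  have n2 := j2_nA2
  have n3 := j2_nA3
  have p1 := norm_nonneg A1
  have p2 := norm_nonneg A2
  have p3 := norm_nonneg A3
  have hy := norm_nonneg y
  have s1 : ‖A1 + A2 + A3‖ ≤ 9 / 2 := by
    have := norm_add₃_le (a := A1) (b := A2) (c := A3)
    linarith
  have s2 : ‖A1 * A2 + A1 * A3 + A2 * A3‖ ≤ 27 / 4 := by
    have := norm_add₃_le (a := A1 * A2) (b := A1 * A3) (c := A2 * A3)
    rw [norm_mul, norm_mul, norm_mul] at this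
    have h1 : ‖A1‖ * ‖A2‖ ≤ 3 / 2 * (3 / 2) := by gcongr
    have h2 : ‖A1‖ * ‖A3‖ ≤ 3 / 2 * (3 / 2) := by gcongr
    have h3 : ‖A2‖ * ‖A3‖ ≤ 3 / 2 * (3 / 2) := by gcongr
    linarith
  have s3 : ‖A1 * A2 * A3‖ ≤ 27 / 8 := by
    rw [norm_mul, norm_mul]
    calc ‖A1‖ * ‖A2‖ * ‖A3‖ ≤ 3 / 2 * (3 / 2) * (3 / 2) := by gcongr
      _ = 27 / 8 := by norm_num
  unfold Φ
  refine (norm_add_le _ _).trans (add_le_add ((norm_add₃_le).trans (add_le_add (add_le_add ?_ ?_)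
    ?_)) ?_)
  · rw [norm_div, norm_pow]; simp
  · rw [norm_div, norm_mul, norm_pow]
    simp only [Complex.norm_ofNat]
    gcongr
  · rw [norm_div, norm_mul, norm_pow]
    simp only [Complex.norm_ofNat]
    gcongr
  · rw [norm_div, norm_mul, norm_pow]
    simp only [Complex.norm_ofNat]
    gcongr

theorem j2_ia1 : 1 / a1 = ⟨1 / 2, -1 / 2⟩ := by
  have h : a1 * ⟨1 / 2, -1 / 2⟩ = 1 := by
    rw [j2_a1]
    apply Complex.ext <;> simp <;> norm_num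
  have h0 : a1 ≠ 0 := by
    intro h0
    rw [h0, zero_mul] at h
    exact zero_ne_one h
  rw [eq_comm, eq_div_iff h0, mul_comm, h]

theorem j2_const : I * (m ^ 2 / 2) * Φ (1 / a1) = ⟨519 / 16820, -1717 / 13456⟩ := by
  rw [j2_ia1]
  unfold Φ
  rw [j2_A1, j2_A2, j2_A3, j2_m]
  apply Complex.ext
  · simp [pow_succ, Complex.mul_re, Complex.mul_im, Complex.add_re, Complex.add_im]
    norm_num
  · simp [pow_succ, Complex.mul_re, Complex.mul_im, Complex.add_re, Complex.add_im]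
    norm_num

theorem j2_v (y : ℂ) : ‖v y - ⟨519 / 16820, -1717 / 13456⟩‖ ≤ ‖Φ y‖ := by
  have h : v y - ⟨519 / 16820, -1717 / 13456⟩ = - (I * (m ^ 2 / 2) * Φ y) := by
    rw [← j2_const]; unfold v; ring
  rw [h, norm_neg, norm_mul, norm_mul, Complex.norm_I, one_mul]
  have := j2_nm
  have h2 := norm_nonneg (Φ y)
  nlinarith

/-- quadratic factors -/
noncomputable def j2Q (b c : ℝ) (y : ℂ) : ℂ := 1 - 2 * I * b * y - c * y ^ 2

theorem j2_Q1 (y : ℂ) : (1 - a1 * y) * (1 + A1 * y) = j2Q 1 2 y := by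
  have h1 : A1 - a1 = - (2 * I * (1 : ℝ)) := by
    rw [j2_a1, j2_A1]; apply Complex.ext <;> simp; norm_num
  have h2 : a1 * A1 = ((2 : ℝ) : ℂ) := by
    rw [j2_a1, j2_A1]; apply Complex.ext <;> simp; norm_num
  unfold j2Q
  rw [← h2]
  linear_combination y * h1

theorem j2_Q2 (y : ℂ) : (1 - a2 * y) * (1 + A2 * y) = j2Q (28 / 29) (928 / 841) y := by
  have h1 : A2 - a2 = - (2 * I * ((28 / 29 : ℝ) : ℂ)) := by
    rw [j2_a2, j2_A2]; apply Complex.ext <;> simp; norm_num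
  have h2 : a2 * A2 = ((928 / 841 : ℝ) : ℂ) := by
    rw [j2_a2, j2_A2]; apply Complex.ext
    · simp; norm_num
    · simp; norm_num
  unfold j2Q
  rw [← h2]
  linear_combination y * h1

theorem j2_Q3 (y : ℂ) : (1 - a3 * y) * (1 + A3 * y) = j2Q (57 / 58) (3538 / 3364) y := by
  have h1 : A3 - a3 = - (2 * I * ((57 / 58 : ℝ) : ℂ)) := by
    rw [j2_a3, j2_A3]; apply Complex.ext <;> simp; norm_num
  have h2 : a3 * A3 = ((3538 / 3364 : ℝ) : ℂ) := by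
    rw [j2_a3, j2_A3]; apply Complex.ext
    · simp; norm_num
    · simp; norm_num
  unfold j2Q
  rw [← h2]
  linear_combination y * h1

theorem j2_Qim {b c : ℝ} (hb : 0 ≤ b) (hc : 0 ≤ c) {y : ℂ} (hy : ‖y‖ ≤ 1 / 10) :
    |(j2Q b c y).im| ≤ 2 * (b + c / 10) * |y.re| := by
  have h : (j2Q b c y).im = - (y.re * (2 * (b + c * y.im))) := by
    unfold j2Q
    simp [pow_two]
    ring
  rw [h, abs_neg, abs_mul, mul_comm]
  have h1 : |2 * (b + c * y.im)| ≤ 2 * (b + c / 10) := by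
    have h2 : |y.im| ≤ 1 / 10 := (Complex.abs_im_le_norm y).trans hy
    rw [abs_mul, abs_of_pos (by norm_num : (0:ℝ) < 2)]
    have h3 : |b + c * y.im| ≤ b + c * (1 / 10) := by
      refine (abs_add_le _ _).trans ?_
      rw [abs_of_nonneg hb, abs_mul, abs_of_nonneg hc]
      gcongr
    linarith
  gcongr

theorem j2_Qn {b c : ℝ} (hb : 0 ≤ b) (hc : 0 ≤ c) {y : ℂ} (hy : ‖y‖ ≤ 1 / 10) :
    ‖j2Q b c y - 1‖ ≤ 2 * b / 10 + c / 100 := by
  have h : j2Q b c y - 1 = - (2 * I * b * y) - c * y ^ 2 := by unfold j2Q; ring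
  rw [h]
  refine (norm_sub_le _ _).trans ?_
  rw [norm_neg, norm_mul, norm_mul, norm_mul, norm_mul, norm_pow, Complex.norm_I,
    Complex.norm_real, Complex.norm_real, Real.norm_of_nonneg hb, Real.norm_of_nonneg hc]
  simp only [Complex.norm_ofNat]
  have h1 : ‖y‖ ^ 2 ≤ 1 / 100 := by
    have := norm_nonneg y
    nlinarith
  have h2 := mul_le_mul_of_nonneg_left h1 hc
  have h3 := mul_le_mul_of_nonneg_left hy hb
  linarith

theorem j2_im_mul (a b : ℂ) : |(a * b).im| ≤ ‖a‖ * |b.im| + |a.im| * ‖b‖ := by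
  rw [Complex.mul_im]
  refine (abs_add_le _ _).trans ?_
  rw [abs_mul, abs_mul]
  have h1 := Complex.abs_re_le_norm a
  have h2 := Complex.abs_re_le_norm b
  gcongr

theorem j2_small {y : ℂ} (hy : ‖y‖ ≤ 1 / 10) :
    |(V y).re| ≤ 10 * |y.re| ∧ 22 / 100 ≤ (V y).im := by
  set X1 := j2Q 1 2 y with hX1
  set X2 := j2Q (28 / 29) (928 / 841) y with hX2
  set X3 := j2Q (57 / 58) (3538 / 3364) y with hX3
  have hV : V y = I * (X1 * X2 * X3) := by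
    unfold V
    rw [j2_Q1, j2_Q2, j2_Q3]
  have hp := abs_nonneg y.re
  have i1 : |X1.im| ≤ 2.4 * |y.re| := by
    refine (j2_Qim (by norm_num) (by norm_num) hy).trans ?_
    gcongr
    norm_num
  have i2 : |X2.im| ≤ 2.2 * |y.re| := by
    refine (j2_Qim (by norm_num) (by norm_num) hy).trans ?_
    gcongr
    norm_num
  have i3 : |X3.im| ≤ 2.2 * |y.re| := by
    refine (j2_Qim (by norm_num) (by norm_num) hy).trans ?_
    gcongr
    norm_num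
  have e1 : ‖X1 - 1‖ ≤ 0.22 := (j2_Qn (by norm_num) (by norm_num) hy).trans (by norm_num)
  have e2 : ‖X2 - 1‖ ≤ 0.205 := (j2_Qn (by norm_num) (by norm_num) hy).trans (by norm_num)
  have e3 : ‖X3 - 1‖ ≤ 0.21 := (j2_Qn (by norm_num) (by norm_num) hy).trans (by norm_num)
  have f : ∀ X : ℂ, ‖X‖ ≤ 1 + ‖X - 1‖ := by
    intro X
    have := norm_add_le (1 : ℂ) (X - 1)
    simpa using this
  have g1 : ‖X1‖ ≤ 1.22 := (f X1).trans (by linarith)
  have g2 : ‖X2‖ ≤ 1.205 := (f X2).trans (by linarith)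
  have g3 : ‖X3‖ ≤ 1.21 := (f X3).trans (by linarith)
  have k1 : ‖X1 * X2 * X3 - 1‖ ≤ 0.78 := by
    have h : X1 * X2 * X3 - 1 = (X1 - 1) * X2 * X3 + (X2 - 1) * X3 + (X3 - 1) := by ring
    rw [h]
    refine (norm_add₃_le).trans ?_
    rw [norm_mul, norm_mul, norm_mul]
    have h1 : ‖X1 - 1‖ * ‖X2‖ * ‖X3‖ ≤ 0.22 * 1.205 * 1.21 := by gcongr
    have h2 : ‖X2 - 1‖ * ‖X3‖ ≤ 0.205 * 1.21 := by gcongr
    refine (add_le_add (add_le_add h1 h2) e3).trans ?_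
    norm_num
  have k2 : |(X1 * X2 * X3).im| ≤ 10 * |y.re| := by
    refine (j2_im_mul _ _).trans ?_
    have h1 := j2_im_mul X1 X2
    have h2 : |(X1 * X2).im| ≤ (1.22 * 2.2 + 2.4 * 1.205) * |y.re| := by
      refine h1.trans ?_
      have h3 : ‖X1‖ * |X2.im| ≤ 1.22 * (2.2 * |y.re|) := by gcongr
      have h4 : |X1.im| * ‖X2‖ ≤ 2.4 * |y.re| * 1.205 := by gcongr
      linarith
    rw [norm_mul]
    have h5 : ‖X1‖ * ‖X2‖ * |X3.im| ≤ 1.22 * 1.205 * (2.2 * |y.re|) := by gcongr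
    have h6 : |(X1 * X2).im| * ‖X3‖ ≤ (1.22 * 2.2 + 2.4 * 1.205) * |y.re| * 1.21 := by gcongr
    refine (add_le_add h5 h6).trans ?_
    have h7 : 1.22 * 1.205 * (2.2 * |y.re|) + (1.22 * 2.2 + 2.4 * 1.205) * |y.re| * 1.21 =
      (1.22 * 1.205 * 2.2 + (1.22 * 2.2 + 2.4 * 1.205) * 1.21) * |y.re| := by ring
    rw [h7]
    gcongr
    norm_num
  rw [hV]
  constructor
  · have : (I * (X1 * X2 * X3)).re = - (X1 * X2 * X3).im := by
      rw [Complex.I_mul_re]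
    rw [this, abs_neg]
    exact k2
  · have : (I * (X1 * X2 * X3)).im = (X1 * X2 * X3).re := by
      rw [Complex.I_mul_im]
    rw [this]
    have h1 := (abs_le.1 ((Complex.abs_re_le_norm (X1 * X2 * X3 - 1)).trans k1)).1
    rw [Complex.sub_re, Complex.one_re] at h1
    linarith

theorem j2_big {y : ℂ} (hy : ‖y‖ ≤ 4) : ‖V y‖ ≤ 117649 := by
  have f : ∀ a : ℂ, ‖a‖ ≤ 3 / 2 → ‖1 - a * y‖ ≤ 7 ∧ ‖1 + a * y‖ ≤ 7 := by
    intro a ha
    have h1 : ‖a * y‖ ≤ 6 := by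
      rw [norm_mul]
      calc ‖a‖ * ‖y‖ ≤ 3 / 2 * 4 := by gcongr
        _ = 6 := by norm_num
    constructor
    · refine (norm_sub_le _ _).trans ?_
      rw [norm_one]; linarith
    · refine (norm_add_le _ _).trans ?_
      rw [norm_one]; linarith
  have h1 := (f a1 j2_na1).1
  have h2 := (f A1 j2_nA1).2
  have h3 := (f a2 j2_na2).1
  have h4 := (f A2 j2_nA2).2
  have h5 := (f a3 j2_na3).1
  have h6 := (f A3 j2_nA3).2
  unfold V
  rw [norm_mul, norm_mul, norm_mul, norm_mul, norm_mul, norm_mul, Complex.norm_I, one_mul]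
  calc ‖1 - a1 * y‖ * ‖1 + A1 * y‖ * (‖1 - a2 * y‖ * ‖1 + A2 * y‖) *
        (‖1 - a3 * y‖ * ‖1 + A3 * y‖) ≤ 7 * 7 * (7 * 7) * (7 * 7) := by gcongr
    _ = 117649 := by norm_num

theorem j2_vbig {y : ℂ} (hy : ‖y‖ ≤ 4) : ‖v y‖ ≤ 1233 := by
  have h1 := j2_v y
  have h2 := j2_Phi y
  have hy0 := norm_nonneg y
  have h3 : ‖y‖ ^ 2 / 2 + 9 / 2 * ‖y‖ ^ 3 / 3 + 27 / 4 * ‖y‖ ^ 4 / 4 + 27 / 8 * ‖y‖ ^ 5 / 5 ≤
      4 ^ 2 / 2 + 9 / 2 * 4 ^ 3 / 3 + 27 / 4 * 4 ^ 4 / 4 + 27 / 8 * 4 ^ 5 / 5 := by gcongr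
  have h4 : ‖(⟨519 / 16820, -1717 / 13456⟩ : ℂ)‖ ≤ 1 := j2_norm_le (by norm_num) (by norm_num)
  have h5 : ‖v y‖ ≤ ‖v y - ⟨519 / 16820, -1717 / 13456⟩‖ + ‖(⟨519 / 16820, -1717 / 13456⟩ : ℂ)‖ := by
    have := norm_add_le (v y - ⟨519 / 16820, -1717 / 13456⟩) ⟨519 / 16820, -1717 / 13456⟩
    simpa using this
  refine h5.trans ((add_le_add (h1.trans (h2.trans h3)) h4).trans ?_)
  norm_num

theorem j2_fin {P : ℝ} (hP : 0 ≤ P) : 1 / 100000000 * (10 * P) +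
    (1 / 100000000) ^ 2 * (10 * P * (4 / 100)) +
      (1 / 100000000) ^ 2 * (-(22 / 100 * (12 / 100))) ≤ 9900 * P ^ 2 := by
  have h := sq_nonneg (P - 1001 / 1980000 * (1 / 100000000))
  have h2 : (P - 1001 / 1980000 * (1 / 100000000)) ^ 2 = P ^ 2 -
    2 * (1001 / 1980000) * (1 / 100000000) * P + (1001 / 1980000) ^ 2 * (1 / 100000000) ^ 2 := by ring
  rw [h2] at h
  norm_num at h ⊢
  linarith

theorem j2_main (δ : ℝ) (hδ : |δ| = 1 / 100000000) (y : ℂ)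
    (h : 13 * ‖y‖ ^ 2 < 41 * y.re - y.im) :
    ((δ : ℂ) * V y / (1 + δ * v y)).re ≤ (y.re / ‖y‖ ^ 2) ^ 2 := by
  have hre := Complex.abs_re_le_norm y
  have him := Complex.abs_im_le_norm y
  have hre' := abs_le.1 hre
  have him' := abs_le.1 him
  have hr0 : 0 < ‖y‖ := by
    rw [norm_pos_iff]
    rintro rfl
    simp at h
  have hr4 : ‖y‖ ≤ 4 := by nlinarith
  have hvb := j2_vbig hr4
  have hδv : ‖(δ : ℂ) * v y‖ ≤ 1 / 1000 := by
    rw [norm_mul, Complex.norm_real, Real.norm_eq_abs, hδ]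
    linarith
  have hD : 999 / 1000 ≤ ‖1 + (δ : ℂ) * v y‖ := by
    have h1 := norm_sub_norm_le (1 : ℂ) (-((δ : ℂ) * v y))
    rw [norm_neg, norm_one, sub_neg_eq_add] at h1
    linarith
  rcases le_or_gt (1 / 10) ‖y‖ with hcase | hcase
  · -- case 2
    have hT : 3 / 41 ≤ y.re / ‖y‖ ^ 2 := by
      rw [le_div_iff₀ (by positivity)]
      nlinarith
    have hT2 : 9 / 1681 ≤ (y.re / ‖y‖ ^ 2) ^ 2 := by nlinarith
    refine (Complex.re_le_norm _).trans ?_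
    refine le_trans ?_ hT2
    rw [norm_div, norm_mul, Complex.norm_real, Real.norm_eq_abs, hδ, div_le_iff₀ (by linarith)]
    have h2 := j2_big hr4
    nlinarith
  · -- case 1
    have hy1 : ‖y‖ ≤ 1 / 10 := hcase.le
    obtain ⟨k1, k2⟩ := j2_small hy1
    have hΦ : ‖Φ y‖ ≤ 67 / 10000 := by
      refine (j2_Phi y).trans ?_
      have h3 : ‖y‖ ^ 2 / 2 + 9 / 2 * ‖y‖ ^ 3 / 3 + 27 / 4 * ‖y‖ ^ 4 / 4 + 27 / 8 * ‖y‖ ^ 5 / 5 ≤
        (1 / 10) ^ 2 / 2 + 9 / 2 * (1 / 10) ^ 3 / 3 + 27 / 4 * (1 / 10) ^ 4 / 4 +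
          27 / 8 * (1 / 10) ^ 5 / 5 := by gcongr
      refine h3.trans ?_
      norm_num
    have hv := (j2_v y).trans hΦ
    have hvre := abs_le.1 ((Complex.abs_re_le_norm _).trans hv)
    have hvim := abs_le.1 ((Complex.abs_im_le_norm _).trans hv)
    rw [Complex.sub_re] at hvre
    rw [Complex.sub_im] at hvim
    have v1 : |(v y).re| ≤ 4 / 100 := by
      rw [abs_le]
      constructor
      · have := hvre.1
        norm_num at this ⊢
        linarith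
      · have := hvre.2
        norm_num at this ⊢
        linarith
    have v2 : (v y).im ≤ -(12 / 100) := by
      have := hvim.2
      norm_num at this ⊢
      linarith
    obtain ⟨N, hN⟩ : ∃ N, N = Complex.normSq (1 + (δ : ℂ) * v y) := ⟨_, rfl⟩
    have hN1 : 99 / 100 ≤ N := by
      rw [hN, ← Complex.sq_norm]
      nlinarith
    have hN0 : 0 < N := by linarith
    have e1 : ((δ : ℂ) * V y / (1 + δ * v y)).re =
        (δ * (V y).re * (1 + δ * (v y).re) + δ ^ 2 * ((V y).im * (v y).im)) / N := by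
      rw [Complex.div_re, ← hN]
      simp only [Complex.mul_re, Complex.mul_im, Complex.ofReal_re, Complex.ofReal_im,
        Complex.add_re, Complex.add_im, Complex.one_re, Complex.one_im]
      field_simp
      ring
    rw [e1, div_le_iff₀ hN0]
    obtain ⟨P, hP⟩ : ∃ P, P = |y.re| := ⟨_, rfl⟩
    have hP0 : 0 ≤ P := by rw [hP]; exact abs_nonneg _
    have hPsq : P ^ 2 = y.re ^ 2 := by rw [hP, sq_abs]
    rw [← hP] at k1
    have hT : 10000 * P ^ 2 ≤ (y.re / ‖y‖ ^ 2) ^ 2 := by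
      rw [div_pow, le_div_iff₀ (by positivity), hPsq]
      have h5 : (‖y‖ ^ 2) ^ 2 ≤ 1 / 10000 := by
        calc (‖y‖ ^ 2) ^ 2 ≤ ((1 / 10) ^ 2) ^ 2 := by gcongr
          _ = 1 / 10000 := by norm_num
      have h6 : 0 ≤ y.re ^ 2 := sq_nonneg _
      nlinarith
    have hR : 9900 * P ^ 2 ≤ (y.re / ‖y‖ ^ 2) ^ 2 * N := by
      calc 9900 * P ^ 2 = (10000 * P ^ 2) * (99 / 100) := by ring
        _ ≤ (y.re / ‖y‖ ^ 2) ^ 2 * N := by gcongr
    refine le_trans ?_ hR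
    have t1 : δ * (V y).re ≤ 1 / 100000000 * (10 * P) := by
      refine (le_abs_self _).trans ?_
      rw [abs_mul, hδ]
      gcongr
    have t0 : δ ^ 2 = (1 / 100000000) ^ 2 := by rw [← sq_abs, hδ]
    have t2 : (V y).re * (v y).re ≤ 10 * P * (4 / 100) := by
      refine (le_abs_self _).trans ?_
      rw [abs_mul]
      gcongr
    have t3 : (V y).im * (v y).im ≤ -(22 / 100 * (12 / 100)) := by
      nlinarith
    have e2 : δ * (V y).re * (1 + δ * (v y).re) + δ ^ 2 * ((V y).im * (v y).im) =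
        δ * (V y).re + δ ^ 2 * ((V y).re * (v y).re) + δ ^ 2 * ((V y).im * (v y).im) := by ring
    rw [e2, t0]
    have t4 : ((1 : ℝ) / 100000000) ^ 2 * ((V y).re * (v y).re) ≤
        (1 / 100000000) ^ 2 * (10 * P * (4 / 100)) := by gcongr
    have t5 : ((1 : ℝ) / 100000000) ^ 2 * ((V y).im * (v y).im) ≤
        (1 / 100000000) ^ 2 * (-(22 / 100 * (12 / 100))) := by gcongr
    refine (add_le_add (add_le_add t1 t4) t5).trans ?_
    exact j2_fin hP0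

theorem ineq_y : ∃ ε : ℝ, 0 < ε ∧ ∀ y : ℂ, 13 * ‖y‖ ^ 2 < 41 * y.re - y.im →
    ‖(ε : ℂ) * v y‖ ≤ 1 / 2 ∧
    ((ε : ℂ) * V y / (1 + ε * v y)).re ≤ (y.re / ‖y‖ ^ 2) ^ 2 ∧
    -((ε : ℂ) * V y / (1 - ε * v y)).re ≤ (y.re / ‖y‖ ^ 2) ^ 2 := by
  refine ⟨1 / 100000000, by norm_num, fun y h => ⟨?_, ?_, ?_⟩⟩
  · have hre' := abs_le.1 (Complex.abs_re_le_norm y)
    have him' := abs_le.1 (Complex.abs_im_le_norm y)
    have hr0 : 0 < ‖y‖ := by
      rw [norm_pos_iff]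
      rintro rfl
      simp at h
    have hr4 : ‖y‖ ≤ 4 := by nlinarith
    have hvb := j2_vbig hr4
    rw [norm_mul, Complex.norm_real, Real.norm_eq_abs, abs_of_pos (by norm_num)]
    linarith
  · exact j2_main _ (abs_of_pos (by norm_num)) y h
  · have h1 := j2_main (-(1 / 100000000)) (by rw [abs_neg]; exact abs_of_pos (by norm_num)) y h
    have e : ((-(1 / 100000000) : ℝ) : ℂ) * V y / (1 + ((-(1 / 100000000) : ℝ) : ℂ) * v y) =
        - (((1 / 100000000 : ℝ) : ℂ) * V y / (1 - ((1 / 100000000 : ℝ) : ℂ) * v y)) := by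
      rw [Complex.ofReal_neg, neg_mul, neg_mul, neg_div, ← sub_eq_add_neg]
    rw [e, Complex.neg_re] at h1
    exact h1


noncomputable def Y (ζ : ℂ) : ℂ := (1 - ζ) / (a1 - a2 * ζ)

noncomputable def P (ζ : ℂ) : ℂ := m ^ 2 / 2 * (ζ / (1 - ζ)) ^ 2 - 2 * m * (ζ / (1 - ζ)) + 1

theorem aux_m_re : m.re = -41 / 29 := by simp [m]
theorem aux_m_im : m.im = -1 / 29 := by simp [m]
theorem aux_a1_re : a1.re = 1 := by simp [a1]
theorem aux_a1_im : a1.im = 1 := by simp [a1]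
theorem aux_a2_re : a2.re = -12 / 29 := by simp [a2]
theorem aux_a2_im : a2.im = 28 / 29 := by simp [a2]
theorem aux_a3_re : a3.re = 17 / 58 := by simp [a3]
theorem aux_a3_im : a3.im = 57 / 58 := by simp [a3]
theorem aux_A1_re : A1.re = 1 := by simp [A1]
theorem aux_A1_im : A1.im = -1 := by simp [A1]
theorem aux_A2_re : A2.re = -12 / 29 := by simp [A2]
theorem aux_A2_im : A2.im = -28 / 29 := by simp [A2]
theorem aux_A3_re : A3.re = 17 / 58 := by simp [A3]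
theorem aux_A3_im : A3.im = -57 / 58 := by simp [A3]

theorem aux_a2m : a2 = a1 + m := by
  apply Complex.ext
  · rw [add_re, aux_a2_re, aux_a1_re, aux_m_re]; norm_num
  · rw [add_im, aux_a2_im, aux_a1_im, aux_m_im]; norm_num

theorem aux_a3m : a3 = a1 + m / 2 := by
  apply Complex.ext
  · rw [add_re, aux_a3_re, aux_a1_re, div_ofNat_re, aux_m_re]; norm_num
  · rw [add_im, aux_a3_im, aux_a1_im, div_ofNat_im, aux_m_im]; norm_num

theorem aux_m_ne : m ≠ 0 := by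
  intro h
  have := congrArg Complex.re h
  rw [aux_m_re] at this
  norm_num at this

theorem aux_a1_ne : a1 ≠ 0 := by
  intro h
  have := congrArg Complex.re h
  rw [aux_a1_re] at this
  norm_num at this

theorem aux_normSq_lt {ζ : ℂ} (hζ : ζ ∈ ball (0 : ℂ) 1) : normSq ζ < 1 := by
  rw [mem_ball_zero_iff] at hζ
  rw [normSq_eq_norm_sq]
  have := norm_nonneg ζ
  nlinarith

theorem aux_one_sub {ζ : ℂ} (hζ : ζ ∈ ball (0 : ℂ) 1) : 1 - ζ ≠ 0 := by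
  intro h
  have h1 : ζ = 1 := (sub_eq_zero.1 h).symm
  rw [h1, mem_ball_zero_iff, norm_one] at hζ
  exact lt_irrefl _ hζ

theorem den_ne {ζ : ℂ} (hζ : ζ ∈ ball (0 : ℂ) 1) : a1 - a2 * ζ ≠ 0 := by
  intro h
  have h1 : a1 = a2 * ζ := sub_eq_zero.1 h
  have h2 : normSq a1 = normSq a2 * normSq ζ := by rw [h1, normSq_mul]
  have h3 : normSq a1 = 2 := by rw [normSq_apply, aux_a1_re, aux_a1_im]; norm_num
  have h4 : normSq a2 = 928 / 841 := by rw [normSq_apply, aux_a2_re, aux_a2_im]; norm_num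
  have h5 := aux_normSq_lt hζ
  rw [h3, h4] at h2
  linarith

theorem aux_one_a1 {ζ : ℂ} (hd : a1 - a2 * ζ ≠ 0) : 1 - a1 * Y ζ = -(m * ζ) / (a1 - a2 * ζ) := by
  unfold Y
  have h : m = a2 - a1 := by rw [aux_a2m]; ring
  rw [h, eq_div_iff hd, sub_mul, mul_assoc, div_mul_cancel₀ _ hd]
  ring

theorem aux_one_a2 {ζ : ℂ} (hd : a1 - a2 * ζ ≠ 0) : 1 - a2 * Y ζ = -m / (a1 - a2 * ζ) := by
  unfold Y
  have h : m = a2 - a1 := by rw [aux_a2m]; ring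
  rw [h, eq_div_iff hd, sub_mul, mul_assoc, div_mul_cancel₀ _ hd]
  ring

theorem aux_one_a3 {ζ : ℂ} (hd : a1 - a2 * ζ ≠ 0) :
    1 - a3 * Y ζ = -(m / 2 * (1 + ζ)) / (a1 - a2 * ζ) := by
  unfold Y
  have h : m = a2 - a1 := by rw [aux_a2m]; ring
  rw [aux_a3m, h, eq_div_iff hd, sub_mul, mul_assoc, div_mul_cancel₀ _ hd]
  ring


theorem Y_region {ζ : ℂ} (hζ : ζ ∈ ball (0 : ℂ) 1) :
    13 * ‖Y ζ‖ ^ 2 < 41 * (Y ζ).re - (Y ζ).im := by
  have hd := den_ne hζ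
  set y := Y ζ with hy
  have h1 : normSq (1 - a1 * y) < normSq (1 - a2 * y) := by
    rw [hy, aux_one_a1 hd, aux_one_a2 hd, normSq_div, normSq_div, normSq_neg, normSq_neg,
      normSq_mul]
    have h2 : 0 < normSq (a1 - a2 * ζ) := normSq_pos.2 hd
    have h3 : 0 < normSq m := normSq_pos.2 aux_m_ne
    have h4 := aux_normSq_lt hζ
    gcongr
    nlinarith
  have e1 : normSq (1 - a1 * y) = (1 - (y.re - y.im)) ^ 2 + (y.re + y.im) ^ 2 := by
    rw [normSq_apply]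
    simp only [sub_re, sub_im, mul_re, mul_im, one_re, one_im, aux_a1_re, aux_a1_im]
    ring
  have e2 : normSq (1 - a2 * y) = (1 - (-12 / 29 * y.re - 28 / 29 * y.im)) ^ 2 +
      (-12 / 29 * y.im + 28 / 29 * y.re) ^ 2 := by
    rw [normSq_apply]
    simp only [sub_re, sub_im, mul_re, mul_im, one_re, one_im, aux_a2_re, aux_a2_im]
    ring
  rw [e1, e2] at h1
  rw [← normSq_eq_norm_sq, normSq_apply]
  nlinarith

theorem aux_PU (ζ : ℂ) :
    (P ζ).re + ‖ζ / (1 - ζ)‖ ^ 2 = (1 - (m * (ζ / (1 - ζ))).re) ^ 2 := by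
  unfold P
  set w := ζ / (1 - ζ) with hw
  rw [← normSq_eq_norm_sq, normSq_apply]
  have h1 : (m ^ 2 / 2 * w ^ 2 - 2 * m * w + 1).re = ((m.re ^ 2 - m.im ^ 2) / 2 *
      (w.re ^ 2 - w.im ^ 2) - (m.re * m.im) * (2 * w.re * w.im)) - 2 * (m.re * w.re - m.im * w.im) +
      1 := by
    have h2 : (m ^ 2 / 2 * w ^ 2 - 2 * m * w + 1) = (m * m * (w * w)) / 2 - 2 * (m * w) + 1 := by
      ring
    rw [h2]
    simp only [add_re, sub_re, div_ofNat_re, mul_re, mul_im, one_re, re_ofNat, im_ofNat]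
    ring
  rw [h1, mul_re, aux_m_re, aux_m_im]
  ring


theorem Y_U {ζ : ℂ} (hζ : ζ ∈ ball (0 : ℂ) 1) :
    (P ζ).re + ‖ζ / (1 - ζ)‖ ^ 2 = ((Y ζ).re / ‖Y ζ‖ ^ 2) ^ 2 := by
  have hd := den_ne hζ
  have h1 := aux_one_sub hζ
  have hw : (Y ζ)⁻¹ = a1 - m * (ζ / (1 - ζ)) := by
    unfold Y
    rw [inv_div]
    have h : m = a2 - a1 := by rw [aux_a2m]; ring
    rw [h]
    field_simp
    ring
  have h2 : (Y ζ).re / ‖Y ζ‖ ^ 2 = 1 - (m * (ζ / (1 - ζ))).re := by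
    have h3 : ((Y ζ)⁻¹).re = (Y ζ).re / ‖Y ζ‖ ^ 2 := by
      rw [inv_re, normSq_eq_norm_sq]
    rw [← h3, hw, sub_re, aux_a1_re]
  rw [h2]
  exact aux_PU ζ

theorem P_U {ζ : ℂ} (hζ : ζ ∈ ball (0 : ℂ) 1) :
    (P ζ).re + ‖ζ / (1 - ζ)‖ ^ 2 = (1 - (m * (ζ / (1 - ζ))).re) ^ 2 := by
  exact aux_PU ζ

theorem v_Y_zero : v (Y 0) = 0 := by
  have h : Y 0 = 1 / a1 := by
    unfold Y
    simp
  rw [h]
  unfold v
  ring

theorem v_Y_diff : DifferentiableOn ℂ (fun ζ => v (Y ζ)) (ball 0 1) := by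
  have hY : DifferentiableOn ℂ Y (ball 0 1) := by
    unfold Y
    refine DifferentiableOn.div (by fun_prop) (by fun_prop) ?_
    intro ζ hζ
    exact den_ne hζ
  have hv : Differentiable ℂ v := by
    unfold v Φ
    fun_prop
  exact hv.comp_differentiableOn hY

theorem aux_hasDeriv_v (y : ℂ) : HasDerivAt v
    (-(I * (m ^ 2 / 2) * (y * (1 + A1 * y) * (1 + A2 * y) * (1 + A3 * y)))) y := by
  have h1 : HasDerivAt Φ (y * (1 + A1 * y) * (1 + A2 * y) * (1 + A3 * y)) y := by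
    unfold Φ
    have h2 := (hasDerivAt_pow 2 y).div_const (2 : ℂ)
    have h3 := ((hasDerivAt_pow 3 y).const_mul (A1 + A2 + A3)).div_const (3 : ℂ)
    have h4 := ((hasDerivAt_pow 4 y).const_mul (A1 * A2 + A1 * A3 + A2 * A3)).div_const (4 : ℂ)
    have h5 := ((hasDerivAt_pow 5 y).const_mul (A1 * A2 * A3)).div_const (5 : ℂ)
    refine HasDerivAt.congr_deriv (((h2.fun_add h3).fun_add h4).fun_add h5) ?_
    push_cast
    ring
  have h2 := (h1.const_sub (Φ (1 / a1))).const_mul (I * (m ^ 2 / 2))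
  unfold v
  refine HasDerivAt.congr_deriv h2 ?_
  ring

theorem aux_hasDeriv_Y {ζ : ℂ} (hd : a1 - a2 * ζ ≠ 0) :
    HasDerivAt Y (m / (a1 - a2 * ζ) ^ 2) ζ := by
  unfold Y
  have h1 : HasDerivAt (fun ζ : ℂ => 1 - ζ) (-1) ζ := (hasDerivAt_id ζ).const_sub 1
  have h2 : HasDerivAt (fun ζ : ℂ => a1 - a2 * ζ) (-(a2 * 1)) ζ :=
    ((hasDerivAt_id ζ).const_mul a2).const_sub a1
  refine HasDerivAt.congr_deriv (h1.fun_div h2 hd) ?_
  have h : m = a2 - a1 := by rw [aux_a2m]; ring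
  rw [h]
  ring


theorem v_Y_deriv {ζ : ℂ} (hζ : ζ ∈ ball (0 : ℂ) 1) :
    ζ * ((1 + ζ) / (1 - ζ)) * deriv (fun ζ => v (Y ζ)) ζ = V (Y ζ) := by
  have hd := den_ne hζ
  have h1 := aux_one_sub hζ
  have h2 : HasDerivAt (fun ζ => v (Y ζ)) _ ζ := (aux_hasDeriv_v (Y ζ)).comp ζ (aux_hasDeriv_Y hd)
  rw [h2.deriv]
  unfold V
  rw [aux_one_a1 hd, aux_one_a2 hd, aux_one_a3 hd]
  have hY : Y ζ = (1 - ζ) / (a1 - a2 * ζ) := rfl
  generalize (1 + A1 * Y ζ) = B1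
  generalize (1 + A2 * Y ζ) = B2
  generalize (1 + A3 * Y ζ) = B3
  rw [hY]
  field_simp

/-- v ∘ Y is not identically zero -/
theorem v_Y_ne : ∃ ζ ∈ ball (0 : ℂ) 1, v (Y ζ) ≠ 0 := by
  by_contra hcon
  push Not at hcon
  have hhalf : (1 / 2 : ℂ) ∈ ball (0 : ℂ) 1 := by
    rw [mem_ball_zero_iff]
    norm_num
  have hd := den_ne hhalf
  have h1 : deriv (fun ζ => v (Y ζ)) (1 / 2) = 0 := by
    have h2 : (fun ζ => v (Y ζ)) =ᶠ[𝓝 (1 / 2 : ℂ)] fun _ => 0 := by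
      filter_upwards [isOpen_ball.mem_nhds hhalf] with z hz
      exact hcon z hz
    rw [h2.deriv_eq]
    simp
  have h3 := v_Y_deriv hhalf
  rw [h1, mul_zero] at h3
  have hY : Y (1 / 2) = (7 - 3 * I) / 20 := by
    unfold Y
    rw [div_eq_iff hd]
    apply Complex.ext
    · simp only [sub_re, mul_re, div_ofNat_re, div_ofNat_im, sub_im, mul_im, one_re, one_im,
        aux_a1_re, aux_a1_im, aux_a2_re, aux_a2_im, I_re, I_im, re_ofNat, im_ofNat]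
      norm_num
    · simp only [sub_re, mul_re, div_ofNat_re, div_ofNat_im, sub_im, mul_im, one_re, one_im,
        aux_a1_re, aux_a1_im, aux_a2_re, aux_a2_im, I_re, I_im, re_ofNat, im_ofNat]
      norm_num
  have hYre : (Y (1 / 2)).re = 7 / 20 := by rw [hY]; simp
  have hYim : (Y (1 / 2)).im = -3 / 20 := by rw [hY]; simp
  have hne : ∀ a : ℂ, (1 + a * Y (1 / 2)) = 0 → 1 + (a.re * (7 / 20) - a.im * (-3 / 20)) = 0 := by
    intro a ha
    have := congrArg Complex.re ha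
    rwa [add_re, mul_re, one_re, zero_re, hYre, hYim] at this
  have hne2 : ∀ a : ℂ, (1 - a * Y (1 / 2)) = 0 → 1 - (a.re * (7 / 20) - a.im * (-3 / 20)) = 0 := by
    intro a ha
    have := congrArg Complex.re ha
    rwa [sub_re, mul_re, one_re, zero_re, hYre, hYim] at this
  unfold V at h3
  have h4 := h3.symm
  simp only [mul_eq_zero] at h4
  rcases h4 with h | ((h | h) | (h | h)) | (h | h)
  · exact I_ne_zero h
  · have := hne2 _ h
    rw [aux_a1_re, aux_a1_im] at this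
    norm_num at this
  · have := hne _ h
    rw [aux_A1_re, aux_A1_im] at this
    norm_num at this
  · have := hne2 _ h
    rw [aux_a2_re, aux_a2_im] at this
    norm_num at this
  · have := hne _ h
    rw [aux_A2_re, aux_A2_im] at this
    norm_num at this
  · have := hne2 _ h
    rw [aux_a3_re, aux_a3_im] at this
    norm_num at this
  · have := hne _ h
    rw [aux_A3_re, aux_A3_im] at this
    norm_num at this


noncomputable def u (ζ : ℂ) : ℂ :=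
  cexp (m ^ 2 / 4 * Complex.log (1 - ζ) + (m ^ 2 / 4 + 2 * m) * Complex.log (1 + ζ))

theorem aux_abs {ζ : ℂ} (hζ : ζ ∈ ball (0 : ℂ) 1) : |ζ.re| < 1 := by
  rw [mem_ball_zero_iff] at hζ
  exact lt_of_le_of_lt (Complex.abs_re_le_norm ζ) hζ

theorem slit_sub {ζ : ℂ} (hζ : ζ ∈ ball (0 : ℂ) 1) : 1 - ζ ∈ slitPlane := by
  have := abs_lt.1 (aux_abs hζ)
  left
  simp
  linarith

theorem slit_add {ζ : ℂ} (hζ : ζ ∈ ball (0 : ℂ) 1) : 1 + ζ ∈ slitPlane := by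
  have := abs_lt.1 (aux_abs hζ)
  left
  simp
  linarith

theorem sub_ne {ζ : ℂ} (hζ : ζ ∈ ball (0 : ℂ) 1) : 1 - ζ ≠ 0 := slitPlane_ne_zero (slit_sub hζ)
theorem add_ne {ζ : ℂ} (hζ : ζ ∈ ball (0 : ℂ) 1) : 1 + ζ ≠ 0 := slitPlane_ne_zero (slit_add hζ)

theorem u_hasDeriv {ζ : ℂ} (hζ : ζ ∈ ball (0 : ℂ) 1) :
    HasDerivAt u (u ζ * (m ^ 2 / 4 * (-1 / (1 - ζ)) + (m ^ 2 / 4 + 2 * m) * (1 / (1 + ζ)))) ζ := by
  have h1 : HasDerivAt (fun z : ℂ => Complex.log (1 - z)) (-1 / (1 - ζ)) ζ := by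
    have h : HasDerivAt (fun z : ℂ => 1 - z) (-1) ζ := by
      simpa using (hasDerivAt_id ζ).const_sub 1
    exact h.clog (slit_sub hζ)
  have h2 : HasDerivAt (fun z : ℂ => Complex.log (1 + z)) (1 / (1 + ζ)) ζ := by
    have h : HasDerivAt (fun z : ℂ => 1 + z) 1 ζ := by
      simpa using (hasDerivAt_id ζ).const_add 1
    exact h.clog (slit_add hζ)
  have h3 := ((h1.const_mul (m ^ 2 / 4)).add (h2.const_mul (m ^ 2 / 4 + 2 * m))).cexp
  exact h3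

theorem u_diff : DifferentiableOn ℂ u (ball 0 1) := fun _ hζ =>
  (u_hasDeriv hζ).differentiableAt.differentiableWithinAt

theorem u_zero : u 0 = 1 := by
  simp [u]

theorem u_deriv {ζ : ℂ} (hζ : ζ ∈ ball (0 : ℂ) 1) :
    u ζ * (1 - P ζ) = ζ * ((1 + ζ) / (1 - ζ)) * deriv u ζ := by
  rw [(u_hasDeriv hζ).deriv]
  have h1 := sub_ne hζ
  have h2 := add_ne hζ
  unfold P
  field_simp
  ring

noncomputable def φ (ζ : ℂ) : ℂ := ζ / (1 + ζ) ^ 2

theorem φ_hasDeriv {ζ : ℂ} (hζ : ζ ∈ ball (0 : ℂ) 1) :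
    HasDerivAt φ ((1 - ζ) / (1 + ζ) ^ 3) ζ := by
  have h2 := add_ne hζ
  have h : HasDerivAt (fun z : ℂ => 1 + z) 1 ζ := by
    simpa using (hasDerivAt_id ζ).const_add 1
  have h3 := (hasDerivAt_id ζ).div (h.pow 2) (pow_ne_zero 2 h2)
  refine h3.congr_deriv ?_
  simp
  field_simp
  ring

theorem φ_diff : DifferentiableOn ℂ φ (ball 0 1) := fun _ hζ =>
  (φ_hasDeriv hζ).differentiableAt.differentiableWithinAt

theorem φ_inj : InjOn φ (ball 0 1) := by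
  intro a ha b hb hab
  have h1 := add_ne ha
  have h2 := add_ne hb
  unfold φ at hab
  rw [div_eq_div_iff (pow_ne_zero 2 h1) (pow_ne_zero 2 h2)] at hab
  have h3 : (a - b) * (1 - a * b) = 0 := by linear_combination hab
  rcases mul_eq_zero.1 h3 with h | h
  · exact sub_eq_zero.1 h
  · exfalso
    rw [mem_ball_zero_iff] at ha hb
    have h4 : a * b = 1 := (sub_eq_zero.1 h).symm
    have h5 : ‖a‖ * ‖b‖ = 1 := by rw [← norm_mul, h4, norm_one]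
    nlinarith [norm_nonneg a, norm_nonneg b]

theorem φ_zero : φ 0 = 0 := by
  simp [φ]

theorem φ_deriv_zero : deriv φ 0 = 1 := by
  rw [(φ_hasDeriv (by simp)).deriv]
  simp

theorem φ_deriv_ne {ζ : ℂ} (hζ : ζ ∈ ball (0 : ℂ) 1) : deriv φ ζ ≠ 0 := by
  rw [(φ_hasDeriv hζ).deriv]
  exact div_ne_zero (sub_ne hζ) (pow_ne_zero _ (add_ne hζ))

theorem φ_deriv {ζ : ℂ} (hζ : ζ ∈ ball (0 : ℂ) 1) :
    φ ζ = ζ * ((1 + ζ) / (1 - ζ)) * deriv φ ζ := by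
  rw [(φ_hasDeriv hζ).deriv]
  have h1 := sub_ne hζ
  have h2 := add_ne hζ
  unfold φ
  field_simp

theorem re_formula {ζ : ℂ} (hζ : ζ ∈ ball (0 : ℂ) 1) :
    ((1 + ζ) / (1 - ζ)).re = (1 - ‖ζ‖ ^ 2) / ‖1 - ζ‖ ^ 2 := by
  have h1 := sub_ne hζ
  have h2 : normSq (1 - ζ) ≠ 0 := by rwa [Ne, normSq_eq_zero]
  rw [Complex.div_re, ← Complex.normSq_eq_norm_sq, ← Complex.normSq_eq_norm_sq]
  field_simp
  simp [normSq_apply]
  ring

theorem p_pos {ζ : ℂ} (hζ : ζ ∈ ball (0 : ℂ) 1) : 0 < ((1 + ζ) / (1 - ζ)).re := by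
  rw [re_formula hζ]
  have h1 : 0 < ‖1 - ζ‖ := norm_pos_iff.2 (sub_ne hζ)
  rw [mem_ball_zero_iff] at hζ
  have h2 := norm_nonneg ζ
  apply div_pos
  · nlinarith
  · positivity

theorem p_re {ζ : ℂ} (hζ : ζ ∈ ball (0 : ℂ) 1) :
    ((1 + ζ) / (1 - ζ)).re * ‖ζ‖ ^ 2 = (1 - ‖ζ‖ ^ 2) * ‖ζ / (1 - ζ)‖ ^ 2 := by
  rw [re_formula hζ, norm_div]
  have h1 : ‖1 - ζ‖ ≠ 0 := norm_ne_zero_iff.2 (sub_ne hζ)
  field_simp

theorem P_diff : DifferentiableOn ℂ P (ball 0 1) := by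
  intro ζ hζ
  have h1 := sub_ne hζ
  have h : DifferentiableAt ℂ (fun z : ℂ => z / (1 - z)) ζ :=
    differentiableAt_id.div (differentiableAt_id.const_sub 1) h1
  unfold P
  exact (((h.pow 2).const_mul _).sub (h.const_mul _)).add_const _ |>.differentiableWithinAt

theorem norm_m : ‖m‖ ^ 2 = 2 := by
  rw [← Complex.normSq_eq_norm_sq]
  simp [m, normSq_apply]
  norm_num

theorem m_ne : m ≠ 0 := by
  intro h
  have := norm_m
  rw [h] at this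
  norm_num at this

noncomputable def ww (t : ℝ) : ℂ := (1 - t * I) / m

theorem ww_re (t : ℝ) : (ww t).re = (t - 41) / 58 := by
  unfold ww m
  have h1 : normSq (-(41 + I) / 29) = 2 := by
    simp [normSq_apply]; norm_num
  rw [Complex.div_re, h1]
  simp
  ring

theorem one_add_ww_ne {t : ℝ} (ht : 12 < t) : 1 + ww t ≠ 0 := by
  intro h
  have := congrArg Complex.re h
  simp [ww_re] at this
  linarith

noncomputable def zz (t : ℝ) : ℂ := ww t / (1 + ww t)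

theorem zz_mem {t : ℝ} (ht : 12 < t) : zz t ∈ ball (0 : ℂ) 1 := by
  have h1 := one_add_ww_ne ht
  rw [mem_ball_zero_iff, zz, norm_div, div_lt_one (norm_pos_iff.2 h1)]
  apply lt_of_pow_lt_pow_left₀ 2 (norm_nonneg _)
  rw [← Complex.normSq_eq_norm_sq, ← Complex.normSq_eq_norm_sq, normSq_apply, normSq_apply]
  simp [ww_re]
  nlinarith

theorem zz_inv {t : ℝ} (ht : 12 < t) : zz t / (1 - zz t) = ww t := by
  have h1 := one_add_ww_ne ht
  unfold zz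
  have h2 : 1 - ww t / (1 + ww t) = 1 / (1 + ww t) := by field_simp; ring
  rw [h2]
  field_simp

theorem zz_val {t : ℝ} (ht : 12 < t) : (P (zz t)).re + ‖zz t / (1 - zz t)‖ ^ 2 = 0 := by
  unfold P
  rw [zz_inv ht]
  have hm := m_ne
  have h1 : m ^ 2 / 2 * ww t ^ 2 - 2 * m * ww t + 1 = (1 - t * I) ^ 2 / 2 - 2 * (1 - t * I) + 1 := by
    unfold ww
    field_simp
  rw [h1]
  have h2 : ‖ww t‖ ^ 2 = (1 + t ^ 2) / 2 := by
    unfold ww
    rw [norm_div, div_pow, norm_m, ← Complex.normSq_eq_norm_sq, normSq_apply]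
    simp
    ring
  rw [h2]
  simp [pow_two]
  ring

theorem zz_inj {s t : ℝ} (hs : 12 < s) (ht : 12 < t) (h : zz s = zz t) : s = t := by
  have h1 : ww s = ww t := by rw [← zz_inv hs, ← zz_inv ht, h]
  have h2 := congrArg Complex.re h1
  rw [ww_re, ww_re] at h2
  linarith

/-- the real part of P + |w|^2 vanishes on an arc -/
theorem P_arc : ∃ ζ₀ ∈ ball (0 : ℂ) 1,
    ∃ᶠ ζ in 𝓝[≠] ζ₀, (P ζ).re + ‖ζ / (1 - ζ)‖ ^ 2 = 0 := by
  refine ⟨zz 13, zz_mem (by norm_num), ?_⟩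
  have hc : ContinuousAt zz 13 := by
    unfold zz ww
    have h := one_add_ww_ne (t := 13) (by norm_num)
    unfold ww at h
    have hm := m_ne
    fun_prop (disch := assumption)
  have ht : Tendsto zz (𝓝[>] 13) (𝓝[≠] (zz 13)) := by
    apply tendsto_nhdsWithin_of_tendsto_nhds_of_eventually_within
    · exact hc.tendsto.mono_left nhdsWithin_le_nhds
    · filter_upwards [self_mem_nhdsWithin] with t ht
      intro h
      have ht' : (13 : ℝ) < t := ht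
      have := zz_inj (by linarith) (by norm_num) h
      linarith
  apply ht.frequently
  apply Eventually.frequently
  filter_upwards [self_mem_nhdsWithin] with t ht'
  have ht'' : (13 : ℝ) < t := ht'
  exact zz_val (by linarith)

theorem P_growth : ∃ C : ℝ, ∀ ρ : ℝ, 0 < ρ → ρ < 1 → (1 - ρ) ^ 2 * ‖P ρ‖ ≤ C := by
  refine ⟨‖m ^ 2 / 2‖ + ‖2 * m‖ + 1, fun ρ h0 h1 => ?_⟩
  have h2 : (0 : ℝ) < 1 - ρ := by linarith
  have h3 : ((1 : ℂ) - ρ) ≠ 0 := by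
    have : ((1 - ρ : ℝ) : ℂ) ≠ 0 := by exact_mod_cast h2.ne'
    simpa using this
  have h4 : (1 - ρ) ^ 2 * ‖P ρ‖ = ‖((1 - ρ : ℝ) : ℂ) ^ 2 * P ρ‖ := by
    rw [norm_mul, norm_pow, Complex.norm_real, Real.norm_eq_abs, abs_of_pos h2]
  rw [h4]
  have h5 : ((1 - ρ : ℝ) : ℂ) ^ 2 * P ρ =
      m ^ 2 / 2 * ((ρ : ℝ) : ℂ) ^ 2 - 2 * m * (((ρ * (1 - ρ) : ℝ)) : ℂ) + (((1 - ρ) ^ 2 : ℝ) : ℂ) := by
    unfold P
    push_cast
    field_simp
  rw [h5]
  have h6 : ‖(((ρ * (1 - ρ) : ℝ)) : ℂ)‖ ≤ 1 := by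
    rw [Complex.norm_real, Real.norm_eq_abs, abs_of_pos (by positivity)]
    nlinarith
  have h7 : ‖(((1 - ρ) ^ 2 : ℝ) : ℂ)‖ ≤ 1 := by
    rw [Complex.norm_real, Real.norm_eq_abs, abs_of_pos (by positivity)]
    nlinarith
  have h8 : ‖((ρ : ℝ) : ℂ) ^ 2‖ ≤ 1 := by
    rw [norm_pow, Complex.norm_real, Real.norm_eq_abs, abs_of_pos h0]
    nlinarith
  calc ‖m ^ 2 / 2 * ((ρ : ℝ) : ℂ) ^ 2 - 2 * m * (((ρ * (1 - ρ) : ℝ)) : ℂ) + (((1 - ρ) ^ 2 : ℝ) : ℂ)‖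
      ≤ ‖m ^ 2 / 2 * ((ρ : ℝ) : ℂ) ^ 2 - 2 * m * (((ρ * (1 - ρ) : ℝ)) : ℂ)‖ + ‖(((1 - ρ) ^ 2 : ℝ) : ℂ)‖ :=
        norm_add_le _ _
    _ ≤ ‖m ^ 2 / 2 * ((ρ : ℝ) : ℂ) ^ 2‖ + ‖2 * m * (((ρ * (1 - ρ) : ℝ)) : ℂ)‖ + ‖(((1 - ρ) ^ 2 : ℝ) : ℂ)‖ := by
        gcongr; exact norm_sub_le _ _
    _ ≤ ‖m ^ 2 / 2‖ * 1 + ‖2 * m‖ * 1 + 1 := by
        rw [norm_mul, norm_mul (2 * m)]
        gcongr
    _ = _ := by ring


end Pool.Agent.Helper404.Spir
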