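import Mathlib
set_option autoImplicit false
open Complex Metric Set Filter Topology Asymptotics

namespace Pool.Agent.Helper404.Spir

/-- identity theorem on a ball -/
theorem eq_zero_of_freq {f : ℂ → ℂ} {r : ℝ} (hf : DifferentiableOn ℂ f (ball 0 r)) {z₀ : ℂ}
    (h₀ : z₀ ∈ ball (0 : ℂ) r) (h : ∃ᶠ z in 𝓝[≠] z₀, f z = 0) :
    ∀ z ∈ ball (0 : ℂ) r, f z = 0 := by
  have h1 : AnalyticOnNhd ℂ f (ball 0 r) := hf.analyticOnNhd isOpen_ball
  have h2 := h1.eqOn_zero_of_preconnected_of_frequently_eq_zero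
    (convex_ball 0 r).isPreconnected h₀ h
  intro z hz
  exact h2 hz

/-- real part of a holomorphic function: max principle on a disc -/
theorem re_le_of_sphere {f : ℂ → ℂ} {R r h : ℝ} (hf : DifferentiableOn ℂ f (ball 0 R))
    (hr : 0 < r) (hrR : r < R) (hb : ∀ z ∈ sphere (0 : ℂ) r, (f z).re ≤ h) {z : ℂ}
    (hz : z ∈ closedBall (0 : ℂ) r) : (f z).re ≤ h := by
  have h1 : DiffContOnCl ℂ (fun z => cexp (f z)) (ball 0 r) := by
    apply DifferentiableOn.diffContOnCl
    rw [closure_ball _ hr.ne']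
    have : DifferentiableOn ℂ f (closedBall 0 r) := hf.mono (closedBall_subset_ball hrR)
    exact this.cexp
  have h2 := Complex.norm_le_of_forall_mem_frontier_norm_le (C := Real.exp h) isBounded_ball h1
    (by
      intro w hw
      rw [frontier_ball _ hr.ne'] at hw
      rw [Complex.norm_exp]
      exact Real.exp_le_exp.2 (hb w hw)) (z := z) (by rwa [closure_ball _ hr.ne'])
  rw [Complex.norm_exp] at h2
  exact Real.exp_le_exp.1 h2

theorem slice_re {a b : ℂ → ℂ} {R : ℝ} (ha : DifferentiableOn ℂ a (ball 0 R))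
    (hb : DifferentiableOn ℂ b (ball 0 R)) (hb0 : b 0 = 0) (z : ℂ) {A B : ℝ}
    (h : ∀ η ∈ ball (0 : ℂ) R, |((starRingEnd ℂ) z * a η + (starRingEnd ℂ) η * b η).re| ≤
      A + ‖η‖ ^ 2 * B) {r : ℝ} (hr : 0 < r) (hrR : r < R) {η : ℂ} (hη : η ∈ closedBall (0 : ℂ) r) :
    |((starRingEnd ℂ) z * a η + (r : ℂ) ^ 2 * dslope b 0 η).re| ≤ A + r ^ 2 * B := by
  have hd : DifferentiableOn ℂ (dslope b 0) (ball 0 R) :=
    (Complex.differentiableOn_dslope (ball_mem_nhds _ (hr.trans hrR))).2 hb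
  have hf : DifferentiableOn ℂ
      (fun η => (starRingEnd ℂ) z * a η + (r : ℂ) ^ 2 * dslope b 0 η) (ball 0 R) :=
    (ha.const_mul _).add (hd.const_mul _)
  have key : ∀ w ∈ sphere (0 : ℂ) r,
      |((starRingEnd ℂ) z * a w + (r : ℂ) ^ 2 * dslope b 0 w).re| ≤ A + r ^ 2 * B := by
    intro w hw
    have hw1 : ‖w‖ = r := by simpa using hw
    have hw0 : w ≠ 0 := by
      intro h0; rw [h0, norm_zero] at hw1; exact hr.ne hw1
    have h1 : (starRingEnd ℂ) w * b w = (r : ℂ) ^ 2 * dslope b 0 w := by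
      rw [dslope_of_ne _ hw0, slope_def_field, hb0, sub_zero, sub_zero, ← hw1, ← Complex.conj_mul']
      field_simp
    have h2 := h w (by simp [hw1, hrR])
    rw [h1, hw1] at h2
    exact h2
  rw [abs_le]
  constructor
  · have := re_le_of_sphere (f := fun η => -((starRingEnd ℂ) z * a η + (r : ℂ) ^ 2 * dslope b 0 η))
      (h := A + r ^ 2 * B) hf.neg hr hrR (by
        intro w hw
        have := (abs_le.1 (key w hw)).1
        rw [Complex.neg_re]; linarith) hη
    rw [Complex.neg_re] at this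
    linarith
  · exact re_le_of_sphere hf hr hrR (fun w hw => (abs_le.1 (key w hw)).2) hη

/-- first consequence: bound on the real part of the derivative -/
theorem slice_deriv {a b : ℂ → ℂ} {R : ℝ} (hR : 0 < R) (ha : DifferentiableOn ℂ a (ball 0 R))
    (hb : DifferentiableOn ℂ b (ball 0 R)) (ha0 : a 0 = 0) (hb0 : b 0 = 0) (z : ℂ) {A B : ℝ}
    (h : ∀ η ∈ ball (0 : ℂ) R, |((starRingEnd ℂ) z * a η + (starRingEnd ℂ) η * b η).re| ≤
      A + ‖η‖ ^ 2 * B) : R ^ 2 * |(deriv b 0).re| ≤ A + R ^ 2 * B := by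
  have h1 : ∀ r : ℝ, 0 < r → r < R → r ^ 2 * |(deriv b 0).re| ≤ A + r ^ 2 * B := by
    intro r hr hrR
    have h2 := slice_re ha hb hb0 z h hr hrR (η := 0) (by simp [hr.le])
    rw [ha0, mul_zero, zero_add, dslope_same] at h2
    have h3 : ((r : ℂ) ^ 2 * deriv b 0).re = r ^ 2 * (deriv b 0).re := by
      rw [← Complex.ofReal_pow, Complex.re_ofReal_mul]
    rw [h3, abs_mul, abs_of_pos (by positivity)] at h2
    exact h2
  have hc1 : Tendsto (fun r : ℝ => r ^ 2 * |(deriv b 0).re|) (𝓝[<] R) (𝓝 (R ^ 2 * |(deriv b 0).re|)) :=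
    (Continuous.tendsto (by fun_prop) R).mono_left nhdsWithin_le_nhds
  have hc2 : Tendsto (fun r : ℝ => A + r ^ 2 * B) (𝓝[<] R) (𝓝 (A + R ^ 2 * B)) :=
    (Continuous.tendsto (by fun_prop) R).mono_left nhdsWithin_le_nhds
  refine le_of_tendsto_of_tendsto hc1 hc2 ?_
  filter_upwards [Ioo_mem_nhdsLT hR] with r hr
  exact h1 r hr.1 hr.2

/-- second consequence: Borel-Caratheodory -/
theorem slice_norm {a b : ℂ → ℂ} {R : ℝ} (ha : DifferentiableOn ℂ a (ball 0 R))
    (hb : DifferentiableOn ℂ b (ball 0 R)) (ha0 : a 0 = 0) (hb0 : b 0 = 0)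
    (hb1 : deriv b 0 = 0) (z : ℂ) {A B : ℝ}
    (h : ∀ η ∈ ball (0 : ℂ) R, |((starRingEnd ℂ) z * a η + (starRingEnd ℂ) η * b η).re| ≤
      A + ‖η‖ ^ 2 * B) {η : ℂ} (hη : η ∈ ball (0 : ℂ) R) (hη0 : η ≠ 0) :
    ‖(starRingEnd ℂ) z * a η + (R : ℂ) ^ 2 * (b η / η)‖ ≤
      2 * (A + R ^ 2 * B) * ‖η‖ / (R - ‖η‖) := by
  have hηR : ‖η‖ < R := by simpa using hη
  have hη1 : 0 < ‖η‖ := norm_pos_iff.2 hη0
  have hds : dslope b 0 η = b η / η := by
    rw [dslope_of_ne _ hη0, slope_def_field, hb0, sub_zero, sub_zero]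
  have hR : 0 < R := hη1.trans hηR
  have hd : DifferentiableOn ℂ (dslope b 0) (ball 0 R) :=
    (Complex.differentiableOn_dslope (ball_mem_nhds _ hR)).2 hb
  have h1 : ∀ r : ℝ, ‖η‖ < r → r < R →
      ‖(starRingEnd ℂ) z * a η + (r : ℂ) ^ 2 * (b η / η)‖ ≤
      2 * (A + r ^ 2 * B + (R - r)) * ‖η‖ / (r - ‖η‖) := by
    intro r hr hrR
    have hr0 : 0 < r := hη1.trans hr
    set M := A + r ^ 2 * B + (R - r) with hM
    have hre := fun w hw => slice_re ha hb hb0 z h hr0 hrR (η := w) hw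
    have hMpos : 0 < M := by
      have := (abs_nonneg _).trans (hre 0 (by simp [hr0.le]))
      linarith
    have := Complex.borelCaratheodory_zero
      (f := fun η => (starRingEnd ℂ) z * a η + (r : ℂ) ^ 2 * dslope b 0 η) (M := M) (R := r)
      (z := η) hMpos ?_ ?_ hr0 (by simpa using hr) ?_
    · simp only [hds] at this
      exact this
    · exact (((ha.const_mul _).add (hd.const_mul _))).mono (ball_subset_ball hrR.le)
    · intro w hw
      have := (abs_le.1 (hre w (ball_subset_closedBall hw))).2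
      simp only [Set.mem_ofPred_eq]
      linarith
    · simp [ha0, dslope_same, hb1]
  have hc1 : Tendsto (fun r : ℝ => ‖(starRingEnd ℂ) z * a η + (r : ℂ) ^ 2 * (b η / η)‖) (𝓝[<] R)
      (𝓝 ‖(starRingEnd ℂ) z * a η + (R : ℂ) ^ 2 * (b η / η)‖) :=
    (Continuous.tendsto (by fun_prop) R).mono_left nhdsWithin_le_nhds
  have hc2 : Tendsto (fun r : ℝ => 2 * (A + r ^ 2 * B + (R - r)) * ‖η‖ / (r - ‖η‖)) (𝓝[<] R)
      (𝓝 (2 * (A + R ^ 2 * B + (R - R)) * ‖η‖ / (R - ‖η‖))) := by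
    refine Tendsto.div ?_ ?_ (by linarith)
    · exact (Continuous.tendsto (by fun_prop) R).mono_left nhdsWithin_le_nhds
    · exact (Continuous.tendsto (by fun_prop) R).mono_left nhdsWithin_le_nhds
  rw [sub_self, add_zero] at hc2
  refine le_of_tendsto_of_tendsto hc1 hc2 ?_
  filter_upwards [Ioo_mem_nhdsLT hηR] with r hr
  exact h1 r hr.1 hr.2


theorem hasDerivAt_dir_zero {T : ℂ → ℂ} {z : ℂ} (hT : T =o[𝓝 z] (fun ζ => ζ - z)) (v : ℂ) :
    T z = 0 ∧ HasDerivAt (fun t : ℝ => T (z + t * v)) 0 0 := by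
  have h0 : T z = 0 := by
    have h1 := (hT.def (c := 1) one_pos).self_of_nhds
    simpa using h1
  refine ⟨h0, ?_⟩
  have hc : Tendsto (fun t : ℝ => z + t * v) (𝓝 0) (𝓝 z) := by
    have : Continuous (fun t : ℝ => z + t * v) := by fun_prop
    simpa using this.tendsto 0
  have h2 := hT.comp_tendsto hc
  rw [hasDerivAt_iff_isLittleO_nhds_zero]
  simp only [zero_add, smul_zero, sub_zero, ofReal_zero, zero_mul, add_zero, h0]
  refine h2.trans_isBigO ?_
  refine IsBigO.of_bound ‖v‖ (Eventually.of_forall fun t => ?_)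
  simp only [Function.comp, add_sub_cancel_left, norm_mul, Complex.norm_real]
  rw [mul_comm]

theorem pair_zero {A B : ℂ → ℂ} {z : ℂ} (hA : DifferentiableAt ℂ A z)
    (hB : DifferentiableAt ℂ B z)
    (hT : (fun ζ : ℂ => (starRingEnd ℂ) ζ * A ζ + (1 - ζ * (starRingEnd ℂ) ζ) * B ζ)
      =o[𝓝 z] (fun ζ => ζ - z)) :
    A z = 0 ∧ B z = 0 := by
  have key : ∀ v : ℂ, (starRingEnd ℂ) v * A z + (starRingEnd ℂ) z * (deriv A z * v) -
      (v * (starRingEnd ℂ) z + z * (starRingEnd ℂ) v) * B z +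
      (1 - z * (starRingEnd ℂ) z) * (deriv B z * v) = 0 := by
    intro v
    obtain ⟨_, h1⟩ := hasDerivAt_dir_zero hT v
    have hl : HasDerivAt (fun t : ℝ => z + t * v) v 0 := by
      have : HasDerivAt (fun t : ℝ => (t : ℂ)) 1 0 := Complex.ofRealCLM.hasDerivAt
      simpa using (this.mul_const v).const_add z
    have hlc : HasDerivAt (fun t : ℝ => (starRingEnd ℂ) (z + t * v)) ((starRingEnd ℂ) v) 0 := by
      have h5 : HasDerivAt (fun t : ℝ => (t : ℂ)) 1 0 := Complex.ofRealCLM.hasDerivAt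
      have h6 : HasDerivAt (fun t : ℝ => (starRingEnd ℂ) z + t * (starRingEnd ℂ) v)
          ((starRingEnd ℂ) v) 0 := by
        have := (h5.mul_const ((starRingEnd ℂ) v)).const_add ((starRingEnd ℂ) z)
        rwa [one_mul] at this
      have h7 : (fun t : ℝ => (starRingEnd ℂ) (z + t * v)) =
          fun t : ℝ => (starRingEnd ℂ) z + t * (starRingEnd ℂ) v := by
        funext t; simp
      rw [h7]; exact h6
    have hz : z + ((0 : ℝ) : ℂ) * v = z := by simp
    have hA' : HasDerivAt (fun t : ℝ => A (z + t * v)) (deriv A z * v) 0 := by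
      have h2 : HasDerivAt A (deriv A z) (z + ((0 : ℝ) : ℂ) * v) := by
        rw [hz]; exact hA.hasDerivAt
      exact h2.comp (0 : ℝ) hl
    have hB' : HasDerivAt (fun t : ℝ => B (z + t * v)) (deriv B z * v) 0 := by
      have h2 : HasDerivAt B (deriv B z) (z + ((0 : ℝ) : ℂ) * v) := by
        rw [hz]; exact hB.hasDerivAt
      exact h2.comp (0 : ℝ) hl
    have h3 := (hlc.fun_mul hA').fun_add (((hl.fun_mul hlc).const_sub 1).fun_mul hB')
    have h4 := h3.unique h1
    simp only [hz] at h4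
    linear_combination h4
  obtain ⟨h0, _⟩ := hasDerivAt_dir_zero hT 1
  have h1 := key 1
  have hI := key I
  simp only [map_one, mul_one, one_mul, Complex.conj_I] at h1 hI
  have hAB : A z = z * B z := by
    have h2 : -I * ((-I) * A z + (starRingEnd ℂ) z * (deriv A z * I) -
      (I * (starRingEnd ℂ) z + z * (-I)) * B z +
      (1 - z * (starRingEnd ℂ) z) * (deriv B z * I)) = 0 := by rw [hI, mul_zero]
    have h3 : I * I = -1 := Complex.I_mul_I
    linear_combination (1/2) * h1 - (1/2) * h2 + (1/2) * (A z - (starRingEnd ℂ) z * deriv A z + ((starRingEnd ℂ) z - z) * B z - (1 - z * (starRingEnd ℂ) z) * deriv B z) * h3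
  have hB0 : B z = 0 := by
    rw [hAB] at h0
    linear_combination h0
  exact ⟨by rw [hAB, hB0, mul_zero], hB0⟩

/-- a nonnegative differentiable function is o(ζ - z) at a zero -/
theorem isLittleO_of_nonneg {U : ℂ → ℝ} {z : ℂ} (hd : DifferentiableAt ℝ U z)
    (h0 : U z = 0) (hU : ∀ᶠ ζ in 𝓝 z, 0 ≤ U ζ) : U =o[𝓝 z] (fun ζ => ζ - z) := by
  have hmin : IsLocalMin U z := by
    filter_upwards [hU] with ζ hζ
    rw [h0]; exact hζ
  have h1 := hd.hasFDerivAt
  rw [hmin.fderiv_eq_zero] at h1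
  have h2 := h1.isLittleO
  simpa [h0] using h2

theorem deriv_zero_of_re {κ : ℂ → ℂ} {U : ℂ → ℝ} {z : ℂ} (hκ : DifferentiableAt ℂ κ z)
    (hU : U =o[𝓝 z] (fun ζ => ζ - z)) {C : ℝ} (hb : ∀ᶠ ζ in 𝓝 z, |(κ ζ).re| ≤ C * U ζ) :
    deriv κ z = 0 := by
  have h1 : (fun ζ => ((κ ζ).re : ℂ)) =o[𝓝 z] (fun ζ => ζ - z) := by
    refine IsBigO.trans_isLittleO ?_ hU
    refine IsBigO.of_bound |C| ?_
    filter_upwards [hb] with ζ hζ
    rw [Complex.norm_real, Real.norm_eq_abs, Real.norm_eq_abs, ← abs_mul]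
    exact hζ.trans (le_abs_self _)
  have key : ∀ v : ℂ, (deriv κ z * v).re = 0 := by
    intro v
    obtain ⟨_, h2⟩ := hasDerivAt_dir_zero h1 v
    have hl : HasDerivAt (fun t : ℝ => z + t * v) v 0 := by
      have : HasDerivAt (fun t : ℝ => (t : ℂ)) 1 0 := Complex.ofRealCLM.hasDerivAt
      simpa using (this.mul_const v).const_add z
    have hz : z + ((0 : ℝ) : ℂ) * v = z := by simp
    have hκ' : HasDerivAt (fun t : ℝ => κ (z + t * v)) (deriv κ z * v) 0 := by
      have h2 : HasDerivAt κ (deriv κ z) (z + ((0 : ℝ) : ℂ) * v) := by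
        rw [hz]; exact hκ.hasDerivAt
      exact h2.comp (0 : ℝ) hl
    have h3 : HasDerivAt (fun t : ℝ => (κ (z + t * v)).re) ((deriv κ z * v).re) 0 :=
      Complex.reCLM.hasFDerivAt.comp_hasDerivAt (0 : ℝ) hκ'
    have h4 : HasDerivAt (fun t : ℝ => (κ (z + t * v)).re) 0 0 :=
      Complex.reCLM.hasFDerivAt.comp_hasDerivAt (0 : ℝ) h2
    exact h3.unique h4
  have ha := key 1
  have hb' := key I
  apply Complex.ext
  · simpa using ha
  · simpa using hb'


end Pool.Agent.Helper404.Spir
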