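import Mathlib
set_option autoImplicit false
open Complex Metric Set Filter Topology

namespace Pool.Agent.Helper404.Spir

theorem schwarz_one {g : ℂ → ℂ} {ρ M : ℝ} (hρ : 0 < ρ) (hM : M * ρ ^ 2 = 1)
    (hg : DifferentiableOn ℂ g (ball 0 ρ)) (hg0 : g 0 = 0) (hg1 : deriv g 0 = M)
    (hb : ∀ ζ ∈ ball (0 : ℂ) ρ, 0 ≤ ((starRingEnd ℂ) ζ * g ζ).re)
    {ζ : ℂ} (hζ : ζ ∈ ball (0 : ℂ) ρ) (hζ0 : ζ ≠ 0) :
    ‖g ζ / ζ - M‖ ^ 2 ≤ ‖ζ‖ ^ 2 * M * ‖g ζ / ζ + M‖ ^ 2 := by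
  have hM0 : 0 < M := by
    have : 0 < ρ ^ 2 := by positivity
    by_contra h
    push Not at h
    nlinarith
  have hPd : DifferentiableOn ℂ (dslope g 0) (ball 0 ρ) :=
    (Complex.differentiableOn_dslope (ball_mem_nhds 0 hρ)).2 hg
  have hP0 : dslope g 0 0 = M := by rw [dslope_same, hg1]
  have hPz : ∀ z : ℂ, z ≠ 0 → dslope g 0 z = g z / z := by
    intro z hz
    rw [dslope_of_ne _ hz, slope_def_field, hg0, sub_zero, sub_zero]
  have hre : ∀ z ∈ ball (0 : ℂ) ρ, 0 ≤ (dslope g 0 z).re := by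
    intro z hz
    by_cases h0 : z = 0
    · rw [h0, hP0]; simpa using hM0.le
    · rw [hPz z h0]
      have h1 : g z / z = ((starRingEnd ℂ) z * g z) / ((‖z‖ ^ 2 : ℝ) : ℂ) := by
        have h2 : ((‖z‖ ^ 2 : ℝ) : ℂ) = z * (starRingEnd ℂ) z := by
          rw [Complex.mul_conj, Complex.normSq_eq_norm_sq]
        have h3 : (starRingEnd ℂ) z ≠ 0 := by simpa using h0
        rw [h2]
        field_simp
      rw [h1, Complex.div_ofReal_re]
      exact div_nonneg (hb z hz) (by positivity)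
  have hden : ∀ z ∈ ball (0 : ℂ) ρ, dslope g 0 z + M ≠ 0 := by
    intro z hz h
    have h1 := congrArg Complex.re h
    simp only [add_re, ofReal_re, zero_re] at h1
    have := hre z hz
    linarith
  have hle : ∀ a : ℂ, 0 ≤ a.re → ‖a - M‖ ≤ ‖a + M‖ := by
    intro a ha
    rw [← sq_le_sq₀ (norm_nonneg _) (norm_nonneg _), ← Complex.normSq_eq_norm_sq,
      ← Complex.normSq_eq_norm_sq, Complex.normSq_apply, Complex.normSq_apply]
    simp only [sub_re, sub_im, add_re, add_im, ofReal_re, ofReal_im]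
    nlinarith
  set f : ℂ → ℂ := fun z => (dslope g 0 z - M) / (dslope g 0 z + M) with hf
  have hfd : DifferentiableOn ℂ f (ball 0 ρ) :=
    (hPd.sub_const _).div (hPd.add_const _) hden
  have hf0 : f 0 = 0 := by rw [hf]; simp only [hP0]; simp
  have hf1 : ∀ z ∈ ball (0 : ℂ) ρ, ‖f z‖ ≤ 1 := by
    intro z hz
    rw [hf]
    simp only [norm_div]
    exact div_le_one_of_le₀ (hle _ (hre z hz)) (norm_nonneg _)
  have hS : ‖f ζ‖ ≤ 1 / ρ * ‖ζ‖ := by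
    have := Complex.dist_le_div_mul_dist_of_mapsTo_ball (R₂ := 1) hfd (fun x hx => by
      rw [hf0, mem_closedBall, dist_zero_right]; exact hf1 x hx) hζ
    rwa [hf0, dist_zero_right, dist_zero_right] at this
  have hfz : f ζ = (g ζ / ζ - M) / (g ζ / ζ + M) := by
    rw [hf]; simp only [hPz ζ hζ0]
  have hdz : g ζ / ζ + M ≠ 0 := by
    have := hden ζ hζ
    rwa [hPz ζ hζ0] at this
  have hdzn : 0 < ‖g ζ / ζ + M‖ := norm_pos_iff.2 hdz
  rw [hfz, norm_div, div_le_iff₀ hdzn] at hS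
  have hMρ : M = (1 / ρ) ^ 2 := by
    field_simp
    linarith
  calc ‖g ζ / ζ - M‖ ^ 2 ≤ (1 / ρ * ‖ζ‖ * ‖g ζ / ζ + M‖) ^ 2 :=
        pow_le_pow_left₀ (norm_nonneg _) hS 2
    _ = ‖ζ‖ ^ 2 * M * ‖g ζ / ζ + M‖ ^ 2 := by
        rw [hMρ]; ring

/-- Schwarz lemma for a pair p ± δ of functions with nonnegative real part. -/
theorem schwarz_pair {G D : ℂ → ℂ} {ρ M : ℝ} (hρ : 0 < ρ) (hM : M * ρ ^ 2 = 1)
    (hG : DifferentiableOn ℂ G (ball 0 ρ)) (hD : DifferentiableOn ℂ D (ball 0 ρ))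
    (hG0 : G 0 = 0) (hD0 : D 0 = 0) (hG1 : deriv G 0 = M) (hD1 : deriv D 0 = 0)
    (hb : ∀ ζ ∈ ball (0 : ℂ) ρ, |((starRingEnd ℂ) ζ * D ζ).re| ≤ ((starRingEnd ℂ) ζ * G ζ).re)
    {ζ : ℂ} (hζ : ζ ∈ ball (0 : ℂ) ρ) (hζ0 : ζ ≠ 0) :
    (1 - ‖ζ‖ ^ 2 * M) * ‖D ζ / ζ‖ ^ 2 ≤
        ‖ζ‖ ^ 2 * M * ‖G ζ / ζ + M‖ ^ 2 - ‖G ζ / ζ - M‖ ^ 2 ∧
    2 * |((starRingEnd ℂ) ((‖ζ‖ ^ 2 * M : ℝ) * (G ζ / ζ + M) - (G ζ / ζ - M)) * (D ζ / ζ)).re| ≤
        ‖ζ‖ ^ 2 * M * ‖G ζ / ζ + M‖ ^ 2 - ‖G ζ / ζ - M‖ ^ 2 := by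
  have hGd : DifferentiableAt ℂ G 0 := hG.differentiableAt (ball_mem_nhds 0 hρ)
  have hDd : DifferentiableAt ℂ D 0 := hD.differentiableAt (ball_mem_nhds 0 hρ)
  have h1 := schwarz_one (g := fun z => G z + D z) hρ hM (hG.add hD) (by simp [hG0, hD0])
    (by rw [show (fun z => G z + D z) = G + D from rfl, deriv_add hGd hDd, hG1, hD1, add_zero])
    (by
      intro z hz
      have := abs_le.1 (hb z hz)
      simp only [mul_add, add_re]
      linarith [this.1]) hζ hζ0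
  have h2 := schwarz_one (g := fun z => G z - D z) hρ hM (hG.sub hD) (by simp [hG0, hD0])
    (by rw [show (fun z => G z - D z) = G - D from rfl, deriv_sub hGd hDd, hG1, hD1, sub_zero])
    (by
      intro z hz
      have := abs_le.1 (hb z hz)
      simp only [mul_sub, sub_re]
      linarith [this.2]) hζ hζ0
  simp only [add_div, sub_div] at h1 h2
  have hκ1 : ‖ζ‖ ^ 2 * M ≤ 1 := by
    have hz : ‖ζ‖ < ρ := by simpa using hζ
    have hM0 : 0 < M := by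
      have : 0 < ρ ^ 2 := by positivity
      by_contra h
      push Not at h
      nlinarith
    have : ‖ζ‖ ^ 2 ≤ ρ ^ 2 := pow_le_pow_left₀ (norm_nonneg _) hz.le 2
    nlinarith
  generalize hk : ‖ζ‖ ^ 2 * M = κ at *
  generalize G ζ / ζ = p at *
  generalize D ζ / ζ = δ at *
  have nsq : ∀ a : ℂ, ‖a‖ ^ 2 = a.re * a.re + a.im * a.im := by
    intro a
    rw [← Complex.normSq_eq_norm_sq, Complex.normSq_apply]
  simp only [nsq, add_re, add_im, sub_re, sub_im, ofReal_re, ofReal_im, mul_re, mul_im, conj_re,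
    conj_im] at h1 h2 ⊢
  have hδ : 0 ≤ (1 - κ) * (δ.re * δ.re + δ.im * δ.im) := by
    apply mul_nonneg (by linarith)
    nlinarith [mul_self_nonneg δ.re, mul_self_nonneg δ.im]
  constructor
  · nlinarith [h1, h2]
  · rw [← le_div_iff₀' (by norm_num : (0 : ℝ) < 2), abs_le]
    constructor
    · linarith [h1, h2, hδ]
    · linarith [h1, h2, hδ]

end Pool.Agent.Helper404.Spir
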