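import Mathlib
set_option autoImplicit false
open Complex Metric Set Filter Topology

namespace Pool.Agent.Helper404.Spir

abbrev E := EuclideanSpace ℂ (Fin 2)

/-- the point with coordinates a, b -/
noncomputable def mk (a b : ℂ) : E := !₂[a, b]

theorem mk_0 (a b : ℂ) : mk a b 0 = a := rfl
theorem mk_1 (a b : ℂ) : mk a b 1 = b := rfl

theorem mk_ext {u v : E} (h0 : u 0 = v 0) (h1 : u 1 = v 1) : u = v := by
  ext i; fin_cases i
  · exact h0
  · exact h1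

noncomputable def lin (a c d : ℂ) : E →ₗ[ℂ] E where
  toFun v := mk (a * v 0) (c * v 0 + d * v 1)
  map_add' u v := by
    apply mk_ext
    · simp only [mk_0, PiLp.add_apply]; ring
    · simp only [mk_1, PiLp.add_apply]; ring
  map_smul' r v := by
    apply mk_ext
    · simp only [mk_0, PiLp.smul_apply, smul_eq_mul, RingHom.id_apply]; ring
    · simp only [mk_1, PiLp.smul_apply, smul_eq_mul, RingHom.id_apply]; ring

theorem lin_apply (a c d : ℂ) (v : E) : lin a c d v = mk (a * v 0) (c * v 0 + d * v 1) := rfl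

noncomputable def eqv (a c d : ℂ) (ha : a ≠ 0) (hd : d ≠ 0) : E ≃ₗ[ℂ] E :=
  { lin a c d with
    invFun := fun w => mk (w 0 / a) ((w 1 - c * (w 0 / a)) / d)
    left_inv := by
      intro v
      apply mk_ext
      · change (a * v 0) / a = v 0
        field_simp
      · change ((c * v 0 + d * v 1) - c * ((a * v 0) / a)) / d = v 1
        field_simp
        ring
    right_inv := by
      intro v
      apply mk_ext
      · change a * (v 0 / a) = v 0
        field_simp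
      · change c * (v 0 / a) + d * ((v 1 - c * (v 0 / a)) / d) = v 1
        field_simp
        ring }

noncomputable def ceqv (a c d : ℂ) (ha : a ≠ 0) (hd : d ≠ 0) : E ≃L[ℂ] E :=
  (eqv a c d ha hd).toContinuousLinearEquiv

theorem ceqv_apply (a c d : ℂ) (ha : a ≠ 0) (hd : d ≠ 0) (v : E) :
    ceqv a c d ha hd v = mk (a * v 0) (c * v 0 + d * v 1) := rfl

theorem ceqv_symm_apply (a c d : ℂ) (ha : a ≠ 0) (hd : d ≠ 0) (w : E) :
    (ceqv a c d ha hd).symm w = mk (w 0 / a) ((w 1 - c * (w 0 / a)) / d) := rfl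

theorem norm0_lt {z : E} (hz : z ∈ ball (0 : E) 1) (i : Fin 2) : z i ∈ ball (0 : ℂ) 1 := by
  rw [mem_ball_zero_iff] at hz ⊢
  exact (PiLp.norm_apply_le z i).trans_lt hz

theorem hasG {φ ψ : ℂ → ℂ}
    (hφ : DifferentiableOn ℂ φ (ball 0 1)) (hφd : ∀ ζ ∈ ball (0 : ℂ) 1, deriv φ ζ ≠ 0)
    (hψ : DifferentiableOn ℂ ψ (ball 0 1)) (hψ0 : ∀ ζ ∈ ball (0 : ℂ) 1, ψ ζ ≠ 0) {z : E}
    (hz : z ∈ ball (0 : E) 1) :
    HasFDerivAt (fun z : E => mk (φ (z 0)) (z 1 * ψ (z 0)))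
      ((ceqv (deriv φ (z 0)) (z 1 * deriv ψ (z 0)) (ψ (z 0)) (hφd _ (norm0_lt hz 0))
        (hψ0 _ (norm0_lt hz 0)) : E ≃L[ℂ] E) : E →L[ℂ] E) z := by
  have hz0 := norm0_lt hz 0
  have h1 : HasDerivAt φ (deriv φ (z 0)) (z 0) :=
    ((hφ (z 0) hz0).differentiableAt (isOpen_ball.mem_nhds hz0)).hasDerivAt
  have h2 : HasDerivAt ψ (deriv ψ (z 0)) (z 0) :=
    ((hψ (z 0) hz0).differentiableAt (isOpen_ball.mem_nhds hz0)).hasDerivAt
  have p0 : HasFDerivAt (fun z : E => z 0) (EuclideanSpace.proj 0 : E →L[ℂ] ℂ) z :=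
    (EuclideanSpace.proj 0 : E →L[ℂ] ℂ).hasFDerivAt
  have p1 : HasFDerivAt (fun z : E => z 1) (EuclideanSpace.proj 1 : E →L[ℂ] ℂ) z :=
    (EuclideanSpace.proj 1 : E →L[ℂ] ℂ).hasFDerivAt
  rw [← hasFDerivWithinAt_univ, hasFDerivWithinAt_euclidean]
  intro i
  rw [hasFDerivWithinAt_univ]
  fin_cases i
  · have h3 := h1.comp_hasFDerivAt z p0
    change HasFDerivAt (φ ∘ fun z : E => z 0) _ z
    refine h3.congr_fderiv ?_
    apply ContinuousLinearMap.ext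
    intro v
    rfl
  · have h3 := p1.mul (h2.comp_hasFDerivAt z p0)
    change HasFDerivAt ((fun z : E => z 1) * (ψ ∘ fun z : E => z 0)) _ z
    refine h3.congr_fderiv ?_
    apply ContinuousLinearMap.ext
    intro v
    change z 1 * (deriv ψ (z 0) * v 0) + ψ (z 0) * v 1 = (z 1 * deriv ψ (z 0)) * v 0 + ψ (z 0) * v 1
    ring

/-- A map of the form (φ(z₀), z₁ ψ(z₀)) is in the class of normalised starlike maps of the ball. -/
theorem toric_mem {φ ψ p q : ℂ → ℂ}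
    (hφ : DifferentiableOn ℂ φ (ball 0 1)) (hφi : InjOn φ (ball 0 1)) (hφ0 : φ 0 = 0)
    (hφ1 : deriv φ 0 = 1) (hφd : ∀ ζ ∈ ball (0 : ℂ) 1, deriv φ ζ ≠ 0)
    (hψ : DifferentiableOn ℂ ψ (ball 0 1)) (hψ0 : ∀ ζ ∈ ball (0 : ℂ) 1, ψ ζ ≠ 0)
    (hψ1 : ψ 0 = 1)
    (hp : ∀ ζ ∈ ball (0 : ℂ) 1, φ ζ = ζ * p ζ * deriv φ ζ)
    (hq : ∀ ζ ∈ ball (0 : ℂ) 1, ψ ζ * (1 - q ζ) = ζ * p ζ * deriv ψ ζ)
    (hpos : ∀ ζ ∈ ball (0 : ℂ) 1, 0 < (p ζ).re)
    (hU : ∀ ζ ∈ ball (0 : ℂ) 1, 0 ≤ (1 - ‖ζ‖ ^ 2) * (q ζ).re + ‖ζ‖ ^ 2 * (p ζ).re)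
    {F : E → E} (hF : F = (ball (0 : E) 1).indicator (fun z => mk (φ (z 0)) (z 1 * ψ (z 0)))) :
    (F ∈ {g : E → E | DifferentiableOn ℂ g (Metric.ball (0 : E) 1) ∧
        Set.InjOn g (Metric.ball (0 : E) 1) ∧
        g 0 = 0 ∧
        fderiv ℂ g 0 = ContinuousLinearMap.id ℂ E ∧
        (∀ z ∈ Metric.ball (0 : E) 1, ∃ e : E ≃L[ℂ] E, (e : E →L[ℂ] E) = fderiv ℂ g z) ∧
        (∀ z ∈ Metric.ball (0 : E) 1, z ≠ 0 →
          0 < (inner ℂ z ((fderiv ℂ g z).inverse ((ContinuousLinearMap.id ℂ E) (g z)))).re) ∧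
        (∀ z, z ∉ Metric.ball (0 : E) 1 → g z = 0)}) ∧
    (∀ z ∈ ball (0 : E) 1, (fderiv ℂ F z).inverse (F z) = mk (z 0 * p (z 0)) (z 1 * q (z 0))) := by
  have hFe : ∀ z ∈ ball (0 : E) 1, F z = mk (φ (z 0)) (z 1 * ψ (z 0)) := by
    intro z hz
    rw [hF, Set.indicator_of_mem hz]
  have hFd : ∀ (z : E) (hz : z ∈ ball (0 : E) 1), HasFDerivAt F
      ((ceqv (deriv φ (z 0)) (z 1 * deriv ψ (z 0)) (ψ (z 0)) (hφd _ (norm0_lt hz 0))
        (hψ0 _ (norm0_lt hz 0)) : E ≃L[ℂ] E) : E →L[ℂ] E) z := by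
    intro z hz
    refine (hasG hφ hφd hψ hψ0 hz).congr_of_eventuallyEq ?_
    filter_upwards [isOpen_ball.mem_nhds hz] with w hw
    exact hFe w hw
  have hinv : ∀ z ∈ ball (0 : E) 1, (fderiv ℂ F z).inverse (F z) =
      mk (z 0 * p (z 0)) (z 1 * q (z 0)) := by
    intro z hz
    rw [(hFd z hz).fderiv, ContinuousLinearMap.inverse_equiv]
    rw [ContinuousLinearEquiv.coe_coe, ceqv_symm_apply, hFe z hz, mk_0, mk_1]
    have a1 := hφd _ (norm0_lt hz 0)
    have a2 := hψ0 _ (norm0_lt hz 0)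
    have a3 := hp _ (norm0_lt hz 0)
    have a4 := hq _ (norm0_lt hz 0)
    have a5 : φ (z 0) / deriv φ (z 0) = z 0 * p (z 0) := by
      rw [div_eq_iff a1]; exact a3
    rw [a5]
    congr 1
    rw [div_eq_iff a2]
    linear_combination (z 1) * a4
  refine ⟨⟨?_, ?_, ?_, ?_, ?_, ?_, ?_⟩, hinv⟩
  · intro z hz
    exact (hFd z hz).differentiableAt.differentiableWithinAt
  · intro z hz w hw hzw
    rw [hFe z hz, hFe w hw] at hzw
    have h0 : φ (z 0) = φ (w 0) := by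
      have := congrArg (fun u : E => u 0) hzw
      exact this
    have h1 : z 1 * ψ (z 0) = w 1 * ψ (w 0) := by
      have := congrArg (fun u : E => u 1) hzw
      exact this
    have h2 := hφi (norm0_lt hz 0) (norm0_lt hw 0) h0
    rw [h2] at h1
    exact mk_ext h2 (mul_right_cancel₀ (hψ0 _ (norm0_lt hw 0)) h1)
  · rw [hFe 0 (mem_ball_self one_pos)]
    apply mk_ext
    · simpa [mk_0] using hφ0
    · simp [mk_1]
  · rw [(hFd 0 (mem_ball_self one_pos)).fderiv]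
    ext v : 1
    rw [ContinuousLinearEquiv.coe_coe, ceqv_apply, ContinuousLinearMap.id_apply]
    apply mk_ext
    · rw [mk_0]
      simp [hφ1]
    · rw [mk_1]
      simp [hψ1]
  · intro z hz
    exact ⟨_, (hFd z hz).fderiv.symm⟩
  · intro z hz hz0
    rw [ContinuousLinearMap.id_apply, hinv z hz, PiLp.inner_apply, Fin.sum_univ_two, mk_0, mk_1,
      RCLike.inner_apply, RCLike.inner_apply]
    have e0 : z 0 * p (z 0) * (starRingEnd ℂ) (z 0) = ((‖z 0‖ ^ 2 : ℝ) : ℂ) * p (z 0) := by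
      have := Complex.mul_conj (z 0)
      rw [Complex.normSq_eq_norm_sq] at this
      rw [← this]; ring
    have e1 : z 1 * q (z 0) * (starRingEnd ℂ) (z 1) = ((‖z 1‖ ^ 2 : ℝ) : ℂ) * q (z 0) := by
      have := Complex.mul_conj (z 1)
      rw [Complex.normSq_eq_norm_sq] at this
      rw [← this]; ring
    rw [e0, e1, Complex.add_re, Complex.re_ofReal_mul, Complex.re_ofReal_mul]
    have hb := norm0_lt hz 0
    have hU0 := hU _ hb
    have hp0 := hpos _ hb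
    have hn : ‖z 0‖ ^ 2 + ‖z 1‖ ^ 2 < 1 := by
      have h1 : ‖z‖ < 1 := by simpa using hz
      have h2 : ‖z‖ ^ 2 = ‖z 0‖ ^ 2 + ‖z 1‖ ^ 2 := by
        rw [EuclideanSpace.norm_sq_eq, Fin.sum_univ_two]
      rw [← h2]
      have := norm_nonneg z
      nlinarith
    by_cases h0 : z 0 = 0
    · have h1 : z 1 ≠ 0 := fun h => hz0 (mk_ext h0 h)
      have h2 := hq 0 (mem_ball_self one_pos)
      rw [zero_mul, zero_mul, hψ1, one_mul] at h2
      have h3 : q 0 = 1 := by linear_combination -h2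
      rw [h0, h3]
      have h4 : 0 < ‖z 1‖ := norm_pos_iff.2 h1
      simp
      positivity
    · have h4 : 0 < ‖z 0‖ := norm_pos_iff.2 h0
      have h5 : 0 < ‖z 0‖ ^ 2 := by positivity
      have h6 : 0 ≤ ‖z 1‖ ^ 2 := by positivity
      rcases le_or_gt 0 (q (z 0)).re with h7 | h7
      · have := mul_pos h5 hp0
        have := mul_nonneg h6 h7
        linarith
      · have h8 : (1 - ‖z 0‖ ^ 2) * (q (z 0)).re < ‖z 1‖ ^ 2 * (q (z 0)).re :=
          mul_lt_mul_of_neg_right (by linarith) h7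
        linarith
  · intro z hz
    rw [hF, Set.indicator_of_notMem hz]

end Pool.Agent.Helper404.Spir
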