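import Mathlib
import Pool.Agent.Helper540.Holo
import Pool.Agent.Helper404.Spir.Toric
import Pool.Agent.Helper404.Spir.Schwarz
import Pool.Agent.Helper404.Spir.OneVar
set_option autoImplicit false
open Complex Metric Set Filter Topology Asymptotics

namespace Pool.Agent.Helper404.Spir

attribute [simp] mk_0 mk_1

theorem mk_eq (a b : ℂ) : mk a b = a • mk 1 0 + b • mk 0 1 := by
  ext i; fin_cases i <;> simp [mk]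

theorem mk_norm (a b : ℂ) : ‖mk a b‖ ^ 2 = ‖a‖ ^ 2 + ‖b‖ ^ 2 := by
  rw [EuclideanSpace.norm_sq_eq, Fin.sum_univ_two]; rfl

theorem mk_mem {a b : ℂ} : mk a b ∈ ball (0 : E) 1 ↔ ‖a‖ ^ 2 + ‖b‖ ^ 2 < 1 := by
  rw [mem_ball_zero_iff, ← mk_norm]
  constructor
  · intro h; nlinarith [norm_nonneg (mk a b)]
  · intro h; nlinarith [norm_nonneg (mk a b)]

theorem mk_self (z : E) : mk (z 0) (z 1) = z := by
  ext i; fin_cases i <;> simp [mk]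

section
variable {P : ℂ → ℂ} {D : E → E}

/-- the family of inequalities obtained from the Schwarz lemma -/
theorem ineq_family (hP : DifferentiableOn ℂ P (ball 0 1)) (hP0 : P 0 = 1)
    (hD : DifferentiableOn ℂ D (ball 0 1)) (hD0 : D 0 = 0) (hD1 : fderiv ℂ D 0 = 0)
    (hb : ∀ ζ η : ℂ, ‖ζ‖ ^ 2 + ‖η‖ ^ 2 < 1 →
      |((starRingEnd ℂ) ζ * (D (mk ζ η)) 0 + (starRingEnd ℂ) η * (D (mk ζ η)) 1).re| ≤
        ‖ζ‖ ^ 2 * ((1 + ζ) / (1 - ζ)).re + ‖η‖ ^ 2 * (P ζ).re)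
    (c : ℂ) (s : ℝ) {ζ : ℂ} (hζ : ‖ζ‖ ^ 2 * (1 + s ^ 2 * ‖c‖ ^ 2) < 1) (hζ0 : ζ ≠ 0) :
    let M : ℝ := 1 + s ^ 2 * ‖c‖ ^ 2
    let p : ℂ := (1 + ζ) / (1 - ζ) + (s ^ 2 * ‖c‖ ^ 2 : ℝ) * P ζ
    let δ : ℂ := ((D (mk ζ (ζ * (s * c)))) 0 +
      (starRingEnd ℂ) (s * c) * (D (mk ζ (ζ * (s * c)))) 1) / ζ
    (1 - ‖ζ‖ ^ 2 * M) * ‖δ‖ ^ 2 ≤ ‖ζ‖ ^ 2 * M * ‖p + M‖ ^ 2 - ‖p - M‖ ^ 2 ∧
    2 * |((starRingEnd ℂ) ((‖ζ‖ ^ 2 * M : ℝ) * (p + M) - (p - M)) * δ).re| ≤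
        ‖ζ‖ ^ 2 * M * ‖p + M‖ ^ 2 - ‖p - M‖ ^ 2 := by
  intro M p δ
  have hM0 : 0 < M := by positivity
  set ρ : ℝ := (Real.sqrt M)⁻¹ with hρ
  have hρ0 : 0 < ρ := by positivity
  have hρM : M * ρ ^ 2 = 1 := by
    rw [hρ, inv_pow, Real.sq_sqrt hM0.le]; field_simp
  have hball : ∀ ω : ℂ, ω ∈ ball (0 : ℂ) ρ → ‖ω‖ ^ 2 * M < 1 := by
    intro ω hω
    have h1 : ‖ω‖ < ρ := by simpa using hω
    have h2 : ‖ω‖ ^ 2 < ρ ^ 2 := by nlinarith [norm_nonneg ω]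
    calc ‖ω‖ ^ 2 * M < ρ ^ 2 * M := mul_lt_mul_of_pos_right h2 hM0
      _ = 1 := by rw [mul_comm, hρM]
  have hball1 : ball (0 : ℂ) ρ ⊆ ball (0 : ℂ) 1 := by
    intro ω hω
    have h1 := hball ω hω
    rw [mem_ball_zero_iff]
    have hM1 : 1 ≤ M := by
      have : 0 ≤ s ^ 2 * ‖c‖ ^ 2 := by positivity
      linarith
    nlinarith [norm_nonneg ω, sq_nonneg ‖ω‖]
  have hnorm : ∀ ω : ℂ, ‖ω‖ ^ 2 + ‖ω * (s * c)‖ ^ 2 = ‖ω‖ ^ 2 * M := by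
    intro ω
    rw [norm_mul, norm_mul, Complex.norm_real, mul_pow, mul_pow, Real.norm_eq_abs, sq_abs]
    ring
  have hlin : ∀ ω : ℂ, mk ω (ω * (s * c)) = ω • mk 1 (s * c) := by
    intro ω; ext i; fin_cases i <;> simp [mk]
  set G : ℂ → ℂ := fun ω => ω * ((1 + ω) / (1 - ω) + (s ^ 2 * ‖c‖ ^ 2 : ℝ) * P ω) with hG
  set Dd : ℂ → ℂ := fun ω => (D (mk ω (ω * (s * c)))) 0 +
      (starRingEnd ℂ) (s * c) * (D (mk ω (ω * (s * c)))) 1 with hDd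
  have hden : ∀ ω ∈ ball (0 : ℂ) 1, (1 : ℂ) - ω ≠ 0 := by
    intro ω hω h0
    have h1 : ‖ω‖ < 1 := by simpa using hω
    have h2 : ω = 1 := by linear_combination -h0
    rw [h2] at h1; simp at h1
  have hkd : DifferentiableOn ℂ (fun ω : ℂ => (1 + ω) / (1 - ω) + (s ^ 2 * ‖c‖ ^ 2 : ℝ) * P ω)
      (ball 0 1) := by
    refine DifferentiableOn.add ?_ (hP.const_mul _)
    refine DifferentiableOn.div (by fun_prop) (by fun_prop) hden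
  have hGd : DifferentiableOn ℂ G (ball 0 ρ) :=
    (differentiableOn_id.mul hkd).mono hball1
  have hmaps : MapsTo (fun ω : ℂ => mk ω (ω * (s * c))) (ball 0 ρ) (ball (0 : E) 1) := by
    intro ω hω
    show mk ω (ω * (s * c)) ∈ ball (0 : E) 1
    rw [mk_mem, hnorm]; exact hball ω hω
  have hDE : DifferentiableOn ℂ (fun ω : ℂ => D (mk ω (ω * (s * c)))) (ball 0 ρ) := by
    have h1 : DifferentiableOn ℂ (fun ω : ℂ => mk ω (ω * (s * c))) (ball 0 ρ) := by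
      have : (fun ω : ℂ => mk ω (ω * (s * c))) = fun ω : ℂ => ω • mk 1 (s * c) := funext hlin
      rw [this]; fun_prop
    exact hD.comp h1 hmaps
  have hcoord : ∀ (i : Fin 2) {f : ℂ → E} {S : Set ℂ}, DifferentiableOn ℂ f S →
      DifferentiableOn ℂ (fun ω => (f ω) i) S := by
    intro i f S hf
    exact (EuclideanSpace.proj (𝕜 := ℂ) i).differentiable.comp_differentiableOn hf
  have hDdd : DifferentiableOn ℂ Dd (ball 0 ρ) :=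
    (hcoord 0 hDE).add ((hcoord 1 hDE).const_mul _)
  have hG1 : deriv G 0 = M := by
    have h1 : HasDerivAt G (1 * ((1 + 0) / (1 - 0) + (s ^ 2 * ‖c‖ ^ 2 : ℝ) * P 0) +
        0 * deriv (fun ω : ℂ => (1 + ω) / (1 - ω) + (s ^ 2 * ‖c‖ ^ 2 : ℝ) * P ω) 0) 0 := by
      refine (hasDerivAt_id (0 : ℂ)).fun_mul ?_
      exact (hkd.differentiableAt (isOpen_ball.mem_nhds (by simp))).hasDerivAt
    rw [h1.deriv, hP0]
    simp only [add_zero, sub_zero, div_one, mul_one, one_mul, zero_mul]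
    simp [M]
  have hDd1 : deriv Dd 0 = 0 := by
    have h1 : HasDerivAt (fun ω : ℂ => D (mk ω (ω * (s * c)))) 0 0 := by
      have h2 : HasFDerivAt D (0 : E →L[ℂ] E) ((0 : ℂ) • mk 1 (s * c)) := by
        rw [zero_smul, ← hD1]
        exact (hD.differentiableAt (isOpen_ball.mem_nhds (by simp))).hasFDerivAt
      have h3 : HasDerivAt (fun ω : ℂ => ω • mk 1 (s * c)) ((1 : ℂ) • mk 1 (s * c)) 0 :=
        (hasDerivAt_id (0 : ℂ)).smul_const _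
      have h4 := h2.comp_hasDerivAt (0 : ℂ) h3
      have h5 : (fun ω : ℂ => D (mk ω (ω * (s * c)))) = D ∘ fun ω : ℂ => ω • mk 1 (s * c) := by
        funext ω; simp only [Function.comp, hlin]
      rw [h5]; simpa using h4
    have hc : ∀ i : Fin 2, HasDerivAt (fun ω : ℂ => (D (mk ω (ω * (s * c)))) i) 0 0 := by
      intro i
      have := (EuclideanSpace.proj (𝕜 := ℂ) i : E →L[ℂ] ℂ).hasFDerivAt.comp_hasDerivAt (0 : ℂ) h1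
      rw [map_zero] at this
      exact this
    have h6 : HasDerivAt Dd (0 + (starRingEnd ℂ) (s * c) * 0) 0 :=
      (hc 0).fun_add ((hc 1).const_mul _)
    rw [h6.deriv]; simp
  have hDd0 : Dd 0 = 0 := by
    have : mk (0 : ℂ) (0 * (s * c)) = 0 := by rw [hlin, zero_smul]
    simp only [hDd, this, hD0]
    simp
  have hζρ : ζ ∈ ball (0 : ℂ) ρ := by
    rw [mem_ball_zero_iff]
    have h1 : ‖ζ‖ ^ 2 < ρ ^ 2 := by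
      have h2 : ‖ζ‖ ^ 2 * M < M * ρ ^ 2 := by rw [hρM]; exact hζ
      nlinarith
    exact lt_of_pow_lt_pow_left₀ 2 hρ0.le h1
  have hGz : G ζ / ζ = p := by
    simp only [hG, p]; field_simp
  have hDz : Dd ζ / ζ = δ := rfl
  have hmain := schwarz_pair hρ0 hρM hGd hDdd (by simp [hG]) hDd0 hG1 hDd1 ?_ hζρ hζ0
  · rw [hGz, hDz] at hmain
    exact hmain
  · intro ω hω
    have h1 := hb ω (ω * (s * c)) (by rw [hnorm]; exact hball ω hω)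
    have h2 : (starRingEnd ℂ) ω * Dd ω = (starRingEnd ℂ) ω * (D (mk ω (ω * (s * c)))) 0 +
        (starRingEnd ℂ) (ω * (s * c)) * (D (mk ω (ω * (s * c)))) 1 := by
      simp only [hDd, map_mul]; ring
    have h3 : ((starRingEnd ℂ) ω * G ω).re = ‖ω‖ ^ 2 * ((1 + ω) / (1 - ω)).re +
        ‖ω * (s * c)‖ ^ 2 * (P ω).re := by
      have h4 : (starRingEnd ℂ) ω * G ω = ((‖ω‖ ^ 2 : ℝ) : ℂ) * ((1 + ω) / (1 - ω)) +
          ((‖ω‖ ^ 2 * (s ^ 2 * ‖c‖ ^ 2) : ℝ) : ℂ) * P ω := by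
        simp only [hG]
        push_cast
        rw [← Complex.conj_mul' ω]; ring
      rw [h4, Complex.add_re, Complex.re_ofReal_mul, Complex.re_ofReal_mul]
      congr 2
      rw [norm_mul, norm_mul, Complex.norm_real, mul_pow, mul_pow, Real.norm_eq_abs, sq_abs]
    rw [h2, h3]
    exact h1

/-- step A -/
theorem stepA (hP : DifferentiableOn ℂ P (ball 0 1)) (hP0 : P 0 = 1)
    (hD : DifferentiableOn ℂ D (ball 0 1)) (hD0 : D 0 = 0) (hD1 : fderiv ℂ D 0 = 0)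
    (hb : ∀ ζ η : ℂ, ‖ζ‖ ^ 2 + ‖η‖ ^ 2 < 1 →
      |((starRingEnd ℂ) ζ * (D (mk ζ η)) 0 + (starRingEnd ℂ) η * (D (mk ζ η)) 1).re| ≤
        ‖ζ‖ ^ 2 * ((1 + ζ) / (1 - ζ)).re + ‖η‖ ^ 2 * (P ζ).re)
    {ζ : ℂ} (hζ : ζ ∈ ball (0 : ℂ) 1) : (D (mk ζ 0)) 0 = 0 := by
  rcases eq_or_ne ζ 0 with h0 | h0
  · have : mk (0 : ℂ) 0 = 0 := by ext i; fin_cases i <;> simp [mk]
    rw [h0, this, hD0]; rfl
  · have hζ1 : ‖ζ‖ < 1 := by simpa using hζ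
    have hζ2 : ‖ζ‖ ^ 2 < 1 := by nlinarith [norm_nonneg ζ]
    have h1 := (ineq_family hP hP0 hD hD0 hD1 hb 0 0 (ζ := ζ) (by simpa using hζ2) h0).1
    have hden : (1 : ℂ) - ζ ≠ 0 := by
      intro h2
      have h3 : ζ = 1 := by linear_combination -h2
      rw [h3] at hζ1; simp at hζ1
    simp only [ne_eq, OfNat.ofNat_ne_zero, not_false_eq_true, zero_pow, norm_zero, mul_zero,
      add_zero, mul_one, ofReal_zero, zero_mul, map_zero, ofReal_one] at h1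
    have h4 : (1 + ζ) / (1 - ζ) + 1 = 2 / (1 - ζ) := by field_simp; ring
    have h5 : (1 + ζ) / (1 - ζ) - 1 = ζ * (2 / (1 - ζ)) := by field_simp; ring
    rw [h4, h5, norm_mul, mul_pow, sub_self] at h1
    have h6 : ‖(D (mk ζ 0)) 0 / ζ‖ ^ 2 ≤ 0 := by
      by_contra h7
      push Not at h7
      nlinarith
    have h8 : ‖(D (mk ζ 0)) 0 / ζ‖ = 0 := by
      have := sq_nonneg ‖(D (mk ζ 0)) 0 / ζ‖
      exact pow_eq_zero_iff (two_ne_zero) |>.1 (le_antisymm h6 this)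
    rw [norm_eq_zero, div_eq_zero_iff] at h8
    exact h8.resolve_right h0


/-- the quantity L0 -/
noncomputable def L0 (P : ℂ → ℂ) (ζ : ℂ) : ℝ :=
  ‖ζ‖ ^ 2 * ‖(1 + ζ) / (1 - ζ) + 1‖ ^ 2 +
    2 * (‖ζ‖ ^ 2 * ((starRingEnd ℂ) ((1 + ζ) / (1 - ζ) + 1) * (P ζ + 1)).re) -
    2 * ((starRingEnd ℂ) ((1 + ζ) / (1 - ζ) - 1) * (P ζ - 1)).re

theorem norm_add_sq' (x y : ℂ) (σ : ℝ) : ‖x + σ * y‖ ^ 2 =
    ‖x‖ ^ 2 + 2 * σ * ((starRingEnd ℂ) x * y).re + σ ^ 2 * ‖y‖ ^ 2 := by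
  rw [← Complex.normSq_eq_norm_sq, ← Complex.normSq_eq_norm_sq, ← Complex.normSq_eq_norm_sq]
  simp only [Complex.normSq_apply, Complex.add_re, Complex.add_im, Complex.mul_re, Complex.mul_im,
    Complex.ofReal_re, Complex.ofReal_im, Complex.conj_re, Complex.conj_im]
  ring

theorem T_eq (P : ℂ → ℂ) {ζ : ℂ} (hζ : ζ ∈ ball (0 : ℂ) 1) (σ : ℝ) :
    ‖ζ‖ ^ 2 * (1 + σ) * ‖(1 + ζ) / (1 - ζ) + (σ : ℝ) * P ζ + ((1 + σ : ℝ) : ℂ)‖ ^ 2 -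
      ‖(1 + ζ) / (1 - ζ) + (σ : ℝ) * P ζ - ((1 + σ : ℝ) : ℂ)‖ ^ 2 =
    σ * (L0 P ζ + σ * (‖ζ‖ ^ 2 * ‖P ζ + 1‖ ^ 2 - ‖P ζ - 1‖ ^ 2 +
      2 * (‖ζ‖ ^ 2 * ((starRingEnd ℂ) ((1 + ζ) / (1 - ζ) + 1) * (P ζ + 1)).re) +
      σ * (‖ζ‖ ^ 2 * ‖P ζ + 1‖ ^ 2))) := by
  have hζ1 : ‖ζ‖ < 1 := by simpa using hζ
  have hden : (1 : ℂ) - ζ ≠ 0 := by
    intro h2
    have h3 : ζ = 1 := by linear_combination -h2
    rw [h3] at hζ1; simp at hζ1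
  have h1 : (1 + ζ) / (1 - ζ) + (σ : ℝ) * P ζ + ((1 + σ : ℝ) : ℂ) =
      ((1 + ζ) / (1 - ζ) + 1) + σ * (P ζ + 1) := by push_cast; ring
  have h2 : (1 + ζ) / (1 - ζ) + (σ : ℝ) * P ζ - ((1 + σ : ℝ) : ℂ) =
      ((1 + ζ) / (1 - ζ) - 1) + σ * (P ζ - 1) := by push_cast; ring
  have h5 : (1 + ζ) / (1 - ζ) - 1 = ζ * ((1 + ζ) / (1 - ζ) + 1) := by field_simp; ring
  have h6 : ‖(1 + ζ) / (1 - ζ) - 1‖ ^ 2 = ‖ζ‖ ^ 2 * ‖(1 + ζ) / (1 - ζ) + 1‖ ^ 2 := by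
    rw [h5, norm_mul, mul_pow]
  rw [h1, h2, norm_add_sq', norm_add_sq', h6, L0]
  ring

theorem tendsto_delta (hD : DifferentiableOn ℂ D (ball 0 1)) {ζ : ℂ}
    (hζ : ζ ∈ ball (0 : ℂ) 1) (hA : (D (mk ζ 0)) 0 = 0) (c : ℂ) :
    Tendsto (fun s : ℝ => (((D (mk ζ (ζ * (s * c)))) 0 +
      (starRingEnd ℂ) (s * c) * (D (mk ζ (ζ * (s * c)))) 1) / ζ) / s) (𝓝[>] 0)
      (𝓝 ((ζ * c * (fderiv ℂ D (mk ζ 0) (mk 0 1)) 0 + (starRingEnd ℂ) c * (D (mk ζ 0)) 1) / ζ)) := by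
  have hmem : mk ζ 0 ∈ ball (0 : E) 1 := by
    rw [mk_mem]
    have hζ1 : ‖ζ‖ < 1 := by simpa using hζ
    simp only [norm_zero]
    nlinarith [norm_nonneg ζ]
  have hpath : HasDerivAt (fun s : ℝ => mk ζ (ζ * (s * c))) ((ζ * c) • mk 0 1) 0 := by
    have h1 : HasDerivAt (fun s : ℝ => (s : ℂ)) 1 0 := Complex.ofRealCLM.hasDerivAt
    have h2 : HasDerivAt (fun s : ℝ => ζ * ((s : ℂ) * c)) (ζ * c) 0 := by
      have := (h1.mul_const c).const_mul ζ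
      rwa [one_mul] at this
    have h3 : (fun s : ℝ => mk ζ (ζ * (s * c))) =
        fun s : ℝ => ζ • mk 1 0 + (ζ * ((s : ℂ) * c)) • mk 0 1 := by
      funext s; rw [mk_eq]
    rw [h3]
    exact (h2.smul_const (mk 0 1)).const_add _
  have hz : mk ζ (ζ * (((0 : ℝ) : ℂ) * c)) = mk ζ 0 := by simp
  have hDp : HasDerivAt (fun s : ℝ => D (mk ζ (ζ * (s * c))))
      ((ζ * c) • fderiv ℂ D (mk ζ 0) (mk 0 1)) 0 := by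
    have h1 : HasFDerivAt D (fderiv ℂ D (mk ζ 0)) (mk ζ (ζ * (((0 : ℝ) : ℂ) * c))) := by
      rw [hz]; exact (hD.differentiableAt (isOpen_ball.mem_nhds hmem)).hasFDerivAt
    have h2 := (h1.restrictScalars ℝ).comp_hasDerivAt (0 : ℝ) hpath
    have h3 : ((fderiv ℂ D (mk ζ 0)).restrictScalars ℝ) ((ζ * c) • mk 0 1) =
        (ζ * c) • fderiv ℂ D (mk ζ 0) (mk 0 1) := by
      rw [ContinuousLinearMap.coe_restrictScalars', map_smul]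
    rw [h3] at h2
    exact h2
  have hc : ∀ i : Fin 2, HasDerivAt (fun s : ℝ => (D (mk ζ (ζ * (s * c)))) i)
      (ζ * c * (fderiv ℂ D (mk ζ 0) (mk 0 1)) i) 0 := by
    intro i
    have := ((EuclideanSpace.proj (𝕜 := ℂ) i : E →L[ℂ] ℂ).hasFDerivAt.restrictScalars
      ℝ).comp_hasDerivAt (0 : ℝ) hDp
    exact this
  have h0 := (hc 0).tendsto_slope_zero_right
  have h1 := ((hc 1).continuousAt).tendsto
  simp only [zero_add, hz, hA, sub_zero] at h0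
  have h1' : Tendsto (fun s : ℝ => (D (mk ζ (ζ * (s * c)))) 1) (𝓝[>] 0) (𝓝 ((D (mk ζ 0)) 1)) := by
    have := h1.mono_left (nhdsWithin_le_nhds (s := Set.Ioi (0 : ℝ)))
    rwa [hz] at this
  have h2 := (h0.add (h1'.const_mul ((starRingEnd ℂ) c))).div_const ζ
  refine h2.congr' ?_
  filter_upwards [self_mem_nhdsWithin] with s hs
  have hs0 : (s : ℂ) ≠ 0 := by exact_mod_cast (ne_of_gt hs)
  simp only [map_mul, Complex.conj_ofReal, Complex.real_smul]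
  push_cast
  field_simp

theorem limit_ineq (hP : DifferentiableOn ℂ P (ball 0 1)) (hP0 : P 0 = 1)
    (hD : DifferentiableOn ℂ D (ball 0 1)) (hD0 : D 0 = 0) (hD1 : fderiv ℂ D 0 = 0)
    (hb : ∀ ζ η : ℂ, ‖ζ‖ ^ 2 + ‖η‖ ^ 2 < 1 →
      |((starRingEnd ℂ) ζ * (D (mk ζ η)) 0 + (starRingEnd ℂ) η * (D (mk ζ η)) 1).re| ≤
        ‖ζ‖ ^ 2 * ((1 + ζ) / (1 - ζ)).re + ‖η‖ ^ 2 * (P ζ).re)
    (c : ℂ) {ζ : ℂ} (hζ : ζ ∈ ball (0 : ℂ) 1) (hζ0 : ζ ≠ 0) :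
    let δ : ℂ := (ζ * c * (fderiv ℂ D (mk ζ 0) (mk 0 1)) 0 +
      (starRingEnd ℂ) c * (D (mk ζ 0)) 1) / ζ
    (1 - ‖ζ‖ ^ 2) * ‖δ‖ ^ 2 ≤ ‖c‖ ^ 2 * L0 P ζ ∧
    ((starRingEnd ℂ) ((‖ζ‖ ^ 2 : ℝ) * ((1 + ζ) / (1 - ζ) + 1) - ((1 + ζ) / (1 - ζ) - 1)) * δ).re
      = 0 := by
  intro δ
  have hA := stepA hP hP0 hD hD0 hD1 hb hζ
  have hlim := tendsto_delta hD hζ hA c
  set f : ℝ → ℂ := fun s : ℝ => (((D (mk ζ (ζ * (s * c)))) 0 +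
      (starRingEnd ℂ) (s * c) * (D (mk ζ (ζ * (s * c)))) 1) / ζ) / s with hf
  have hζ1 : ‖ζ‖ < 1 := by simpa using hζ
  have hζ2 : ‖ζ‖ ^ 2 < 1 := by nlinarith [norm_nonneg ζ]
  set R : ℝ → ℝ := fun σ => (L0 P ζ + σ * (‖ζ‖ ^ 2 * ‖P ζ + 1‖ ^ 2 - ‖P ζ - 1‖ ^ 2 +
      2 * (‖ζ‖ ^ 2 * ((starRingEnd ℂ) ((1 + ζ) / (1 - ζ) + 1) * (P ζ + 1)).re) +
      σ * (‖ζ‖ ^ 2 * ‖P ζ + 1‖ ^ 2))) with hR
  have hev : ∀ᶠ s : ℝ in 𝓝[>] 0, ‖ζ‖ ^ 2 * (1 + s ^ 2 * ‖c‖ ^ 2) < 1 := by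
    have : Tendsto (fun s : ℝ => ‖ζ‖ ^ 2 * (1 + s ^ 2 * ‖c‖ ^ 2)) (𝓝[>] 0)
        (𝓝 (‖ζ‖ ^ 2 * (1 + 0 ^ 2 * ‖c‖ ^ 2))) :=
      (Continuous.tendsto (by fun_prop) 0).mono_left nhdsWithin_le_nhds
    exact this.eventually_lt_const (by simpa using hζ2)
  have hfam : ∀ᶠ s : ℝ in 𝓝[>] 0,
      (1 - ‖ζ‖ ^ 2 * (1 + s ^ 2 * ‖c‖ ^ 2)) * ‖f s‖ ^ 2 ≤ ‖c‖ ^ 2 * R (s ^ 2 * ‖c‖ ^ 2) ∧
      |((starRingEnd ℂ) ((‖ζ‖ ^ 2 * (1 + s ^ 2 * ‖c‖ ^ 2) : ℝ) *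
        (((1 + ζ) / (1 - ζ) + (s ^ 2 * ‖c‖ ^ 2 : ℝ) * P ζ) + ((1 + s ^ 2 * ‖c‖ ^ 2 : ℝ) : ℂ)) -
        (((1 + ζ) / (1 - ζ) + (s ^ 2 * ‖c‖ ^ 2 : ℝ) * P ζ) - ((1 + s ^ 2 * ‖c‖ ^ 2 : ℝ) : ℂ)))
          * f s).re| ≤ s * (‖c‖ ^ 2 * R (s ^ 2 * ‖c‖ ^ 2)) := by
    filter_upwards [hev, self_mem_nhdsWithin] with s hs hs0
    have hs0' : 0 < s := hs0
    obtain ⟨h1, h2⟩ := ineq_family hP hP0 hD hD0 hD1 hb c s hs hζ0
    rw [T_eq P hζ (s ^ 2 * ‖c‖ ^ 2)] at h1 h2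
    have hfs : ((D (mk ζ (ζ * (s * c)))) 0 +
      (starRingEnd ℂ) (s * c) * (D (mk ζ (ζ * (s * c)))) 1) / ζ = (s : ℂ) * f s := by
      have : (s : ℂ) ≠ 0 := by exact_mod_cast hs0'.ne'
      simp only [hf]; field_simp
    rw [hfs] at h1 h2
    rw [norm_mul, Complex.norm_real, mul_pow, Real.norm_eq_abs, sq_abs] at h1
    have hs2 : 0 < s ^ 2 := by positivity
    constructor
    · have : s ^ 2 * ((1 - ‖ζ‖ ^ 2 * (1 + s ^ 2 * ‖c‖ ^ 2)) * ‖f s‖ ^ 2) ≤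
          s ^ 2 * (‖c‖ ^ 2 * R (s ^ 2 * ‖c‖ ^ 2)) := by
        calc _ = (1 - ‖ζ‖ ^ 2 * (1 + s ^ 2 * ‖c‖ ^ 2)) * (s ^ 2 * ‖f s‖ ^ 2) := by ring
          _ ≤ _ := h1
          _ = _ := by simp only [hR]; ring
      exact le_of_mul_le_mul_left this hs2
    · have h3 : ∀ K : ℂ, (K * ((s : ℂ) * f s)).re = s * (K * f s).re := by
        intro K
        rw [show K * ((s : ℂ) * f s) = (s : ℂ) * (K * f s) by ring, Complex.re_ofReal_mul]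
      rw [h3, abs_mul, abs_of_pos hs0'] at h2
      have h4 : s * (2 * |((starRingEnd ℂ) ((‖ζ‖ ^ 2 * (1 + s ^ 2 * ‖c‖ ^ 2) : ℝ) *
        (((1 + ζ) / (1 - ζ) + (s ^ 2 * ‖c‖ ^ 2 : ℝ) * P ζ) + ((1 + s ^ 2 * ‖c‖ ^ 2 : ℝ) : ℂ)) -
        (((1 + ζ) / (1 - ζ) + (s ^ 2 * ‖c‖ ^ 2 : ℝ) * P ζ) - ((1 + s ^ 2 * ‖c‖ ^ 2 : ℝ) : ℂ)))
          * f s).re|) ≤ s * (s * (‖c‖ ^ 2 * R (s ^ 2 * ‖c‖ ^ 2))) := by
        calc _ = 2 * (s * |((starRingEnd ℂ) ((‖ζ‖ ^ 2 * (1 + s ^ 2 * ‖c‖ ^ 2) : ℝ) *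
        (((1 + ζ) / (1 - ζ) + (s ^ 2 * ‖c‖ ^ 2 : ℝ) * P ζ) + ((1 + s ^ 2 * ‖c‖ ^ 2 : ℝ) : ℂ)) -
        (((1 + ζ) / (1 - ζ) + (s ^ 2 * ‖c‖ ^ 2 : ℝ) * P ζ) - ((1 + s ^ 2 * ‖c‖ ^ 2 : ℝ) : ℂ)))
          * f s).re|) := by ring
          _ ≤ _ := h2
          _ = _ := by simp only [hR]; ring
      have h5 := le_of_mul_le_mul_left h4 hs0'
      have h6 := abs_nonneg ((starRingEnd ℂ) ((‖ζ‖ ^ 2 * (1 + s ^ 2 * ‖c‖ ^ 2) : ℝ) *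
        (((1 + ζ) / (1 - ζ) + (s ^ 2 * ‖c‖ ^ 2 : ℝ) * P ζ) + ((1 + s ^ 2 * ‖c‖ ^ 2 : ℝ) : ℂ)) -
        (((1 + ζ) / (1 - ζ) + (s ^ 2 * ‖c‖ ^ 2 : ℝ) * P ζ) - ((1 + s ^ 2 * ‖c‖ ^ 2 : ℝ) : ℂ)))
          * f s).re
      linarith
  have hσ : Tendsto (fun s : ℝ => s ^ 2 * ‖c‖ ^ 2) (𝓝[>] 0) (𝓝 0) := by
    have : Tendsto (fun s : ℝ => s ^ 2 * ‖c‖ ^ 2) (𝓝[>] 0) (𝓝 (0 ^ 2 * ‖c‖ ^ 2)) :=
      (Continuous.tendsto (by fun_prop) 0).mono_left nhdsWithin_le_nhds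
    simpa using this
  have hRt : Tendsto (fun s : ℝ => ‖c‖ ^ 2 * R (s ^ 2 * ‖c‖ ^ 2)) (𝓝[>] 0)
      (𝓝 (‖c‖ ^ 2 * L0 P ζ)) := by
    have h1 : Continuous R := by simp only [hR]; fun_prop
    have h2 : R 0 = L0 P ζ := by simp [hR]
    have h3 := (h1.tendsto 0).comp hσ
    rw [h2] at h3
    exact h3.const_mul _
  constructor
  · have h1 : Tendsto (fun s : ℝ => (1 - ‖ζ‖ ^ 2 * (1 + s ^ 2 * ‖c‖ ^ 2))) (𝓝[>] 0)
        (𝓝 (1 - ‖ζ‖ ^ 2 * (1 + 0))) := (((hσ.const_add 1).const_mul _).const_sub 1)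
    rw [add_zero, mul_one] at h1
    have h2 := h1.mul ((hlim.norm).pow 2)
    exact le_of_tendsto_of_tendsto h2 hRt (hfam.mono fun s h => h.1)
  · have hs : Tendsto (fun s : ℝ => s) (𝓝[>] 0) (𝓝 (0 : ℝ)) :=
      tendsto_id.mono_left nhdsWithin_le_nhds
    have h1 : Tendsto (fun s : ℝ => s * (‖c‖ ^ 2 * R (s ^ 2 * ‖c‖ ^ 2))) (𝓝[>] 0) (𝓝 0) := by
      have := hs.mul hRt
      rwa [zero_mul] at this
    have hK : Tendsto (fun s : ℝ => (starRingEnd ℂ) ((‖ζ‖ ^ 2 * (1 + s ^ 2 * ‖c‖ ^ 2) : ℝ) *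
        (((1 + ζ) / (1 - ζ) + (s ^ 2 * ‖c‖ ^ 2 : ℝ) * P ζ) + ((1 + s ^ 2 * ‖c‖ ^ 2 : ℝ) : ℂ)) -
        (((1 + ζ) / (1 - ζ) + (s ^ 2 * ‖c‖ ^ 2 : ℝ) * P ζ) - ((1 + s ^ 2 * ‖c‖ ^ 2 : ℝ) : ℂ))))
        (𝓝[>] 0) (𝓝 ((starRingEnd ℂ) ((‖ζ‖ ^ 2 : ℝ) * ((1 + ζ) / (1 - ζ) + 1) -
          ((1 + ζ) / (1 - ζ) - 1)))) := by
      have hc : Continuous (fun σ : ℝ => (starRingEnd ℂ) ((‖ζ‖ ^ 2 * (1 + σ) : ℝ) *
        (((1 + ζ) / (1 - ζ) + (σ : ℝ) * P ζ) + ((1 + σ : ℝ) : ℂ)) -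
        (((1 + ζ) / (1 - ζ) + (σ : ℝ) * P ζ) - ((1 + σ : ℝ) : ℂ)))) := by
        fun_prop
      have h4 := (hc.tendsto 0).comp hσ
      have h5 : (starRingEnd ℂ) ((‖ζ‖ ^ 2 * (1 + (0 : ℝ)) : ℝ) *
        (((1 + ζ) / (1 - ζ) + ((0 : ℝ) : ℂ) * P ζ) + ((1 + (0 : ℝ) : ℝ) : ℂ)) -
        (((1 + ζ) / (1 - ζ) + ((0 : ℝ) : ℂ) * P ζ) - ((1 + (0 : ℝ) : ℝ) : ℂ))) =
        (starRingEnd ℂ) ((‖ζ‖ ^ 2 : ℝ) * ((1 + ζ) / (1 - ζ) + 1) -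
          ((1 + ζ) / (1 - ζ) - 1)) := by
        simp
      rw [h5] at h4
      exact h4
    have h2 : Tendsto (fun s : ℝ => |((starRingEnd ℂ) ((‖ζ‖ ^ 2 * (1 + s ^ 2 * ‖c‖ ^ 2) : ℝ) *
        (((1 + ζ) / (1 - ζ) + (s ^ 2 * ‖c‖ ^ 2 : ℝ) * P ζ) + ((1 + s ^ 2 * ‖c‖ ^ 2 : ℝ) : ℂ)) -
        (((1 + ζ) / (1 - ζ) + (s ^ 2 * ‖c‖ ^ 2 : ℝ) * P ζ) - ((1 + s ^ 2 * ‖c‖ ^ 2 : ℝ) : ℂ)))
          * f s).re|) (𝓝[>] 0) (𝓝 |((starRingEnd ℂ) ((‖ζ‖ ^ 2 : ℝ) * ((1 + ζ) / (1 - ζ) + 1) -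
          ((1 + ζ) / (1 - ζ) - 1)) * δ).re|) :=
      (((Complex.continuous_re.tendsto _).comp (hK.mul hlim)).abs)
    have h3 := le_of_tendsto_of_tendsto h2 h1 (hfam.mono fun s h => h.2)
    exact abs_eq_zero.1 (le_antisymm h3 (abs_nonneg _))


theorem slice_diff (hD : DifferentiableOn ℂ D (ball 0 1)) (i : Fin 2) :
    DifferentiableOn ℂ (fun ζ => (D (mk ζ 0)) i) (ball 0 1) ∧
    DifferentiableOn ℂ (fun ζ => (fderiv ℂ D (mk ζ 0) (mk 0 1)) i) (ball 0 1) := by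
  have hmaps : MapsTo (fun ζ : ℂ => mk ζ 0) (ball 0 1) (ball (0 : E) 1) := by
    intro ζ hζ
    show mk ζ 0 ∈ ball (0 : E) 1
    rw [mk_mem]
    have hζ1 : ‖ζ‖ < 1 := by simpa using hζ
    simp only [norm_zero]
    nlinarith [norm_nonneg ζ]
  have hl : DifferentiableOn ℂ (fun ζ : ℂ => mk ζ 0) (ball 0 1) := by
    have : (fun ζ : ℂ => mk ζ 0) = fun ζ : ℂ => ζ • mk 1 0 := by
      funext ζ; ext i; fin_cases i <;> simp [mk]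
    rw [this]; fun_prop
  have h2 := Pool.Agent.Helper540.differentiableOn_fderiv_apply isOpen_ball hD (mk 0 1)
  exact ⟨(EuclideanSpace.proj (𝕜 := ℂ) i).differentiable.comp_differentiableOn (hD.comp hl hmaps),
    (EuclideanSpace.proj (𝕜 := ℂ) i).differentiable.comp_differentiableOn (h2.comp hl hmaps)⟩

theorem stepB1 (hP : DifferentiableOn ℂ P (ball 0 1)) (hP0 : P 0 = 1)
    {C₀ : ℝ} (hC : ∀ ρ : ℝ, 0 < ρ → ρ < 1 → (1 - ρ) ^ 2 * ‖P ρ‖ ≤ C₀)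
    (hD : DifferentiableOn ℂ D (ball 0 1)) (hD0 : D 0 = 0) (hD1 : fderiv ℂ D 0 = 0)
    (hb : ∀ ζ η : ℂ, ‖ζ‖ ^ 2 + ‖η‖ ^ 2 < 1 →
      |((starRingEnd ℂ) ζ * (D (mk ζ η)) 0 + (starRingEnd ℂ) η * (D (mk ζ η)) 1).re| ≤
        ‖ζ‖ ^ 2 * ((1 + ζ) / (1 - ζ)).re + ‖η‖ ^ 2 * (P ζ).re)
    (c : ℂ) {ζ : ℂ} (hζ : ζ ∈ ball (0 : ℂ) 1) (hre : 0 < ζ.re) :
    ζ * c * (fderiv ℂ D (mk ζ 0) (mk 0 1)) 0 + (starRingEnd ℂ) c * (D (mk ζ 0)) 1 = 0 := by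
  set N : ℂ → ℂ := fun ζ => ζ * c * (fderiv ℂ D (mk ζ 0) (mk 0 1)) 0 +
    (starRingEnd ℂ) c * (D (mk ζ 0)) 1 with hN
  set f : ℂ → ℂ := fun ζ => (1 - ζ) ^ 2 * N ζ / ζ ^ 2 with hf
  set U : Set ℂ := ball (0 : ℂ) 1 ∩ {z | 0 < z.re} with hU
  have hUo : IsOpen U := isOpen_ball.inter (isOpen_lt continuous_const Complex.continuous_re)
  have hUc : Convex ℝ U := (convex_ball 0 1).inter (convex_halfSpace_re_gt 0)
  have hNd : DifferentiableOn ℂ N (ball 0 1) :=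
    ((differentiableOn_id.mul_const c).mul (slice_diff hD 0).2).add
      ((slice_diff hD 1).1.const_mul _)
  have hUne : ∀ z ∈ U, z ≠ 0 := by
    rintro z ⟨_, hz⟩ h0
    rw [h0] at hz; simp at hz
  have hfd : DifferentiableOn ℂ f U := by
    refine DifferentiableOn.div ?_ (by fun_prop) (fun z hz => pow_ne_zero 2 (hUne z hz))
    exact (by fun_prop : DifferentiableOn ℂ (fun ζ : ℂ => (1 - ζ) ^ 2) U).mul
      (hNd.mono inter_subset_left)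
  have hden : ∀ ω ∈ ball (0 : ℂ) 1, (1 : ℂ) - ω ≠ 0 := by
    intro ω hω h0
    have h1 : ‖ω‖ < 1 := by simpa using hω
    have h2 : ω = 1 := by linear_combination -h0
    rw [h2] at h1; simp at h1
  have hfre : ∀ z ∈ U, (f z).re = 0 := by
    intro z hz
    have hz0 := hUne z hz
    have h1 := (limit_ineq hP hP0 hD hD0 hD1 hb c hz.1 hz0).2
    have hd := hden z hz.1
    have hdc : (1 : ℂ) - (starRingEnd ℂ) z ≠ 0 := by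
      intro h0
      apply hd
      have := congrArg (starRingEnd ℂ) h0
      simpa using this
    have hzc : (starRingEnd ℂ) z ≠ 0 := by simpa using hz0
    have h2 : f z = ((-(‖1 - z‖ ^ 2 / (2 * ‖z‖ ^ 2)) : ℝ) : ℂ) *
        ((starRingEnd ℂ) ((‖z‖ ^ 2 : ℝ) * ((1 + z) / (1 - z) + 1) -
          ((1 + z) / (1 - z) - 1)) * (N z / z)) := by
      have e1 : ((‖z‖ ^ 2 : ℝ) : ℂ) = z * (starRingEnd ℂ) z := by
        push_cast; rw [← Complex.mul_conj']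
      have e2 : ((‖1 - z‖ ^ 2 : ℝ) : ℂ) = (1 - z) * (1 - (starRingEnd ℂ) z) := by
        push_cast; rw [← Complex.mul_conj']; simp
      have e3 : ((-(‖1 - z‖ ^ 2 / (2 * ‖z‖ ^ 2)) : ℝ) : ℂ) =
          -((1 - z) * (1 - (starRingEnd ℂ) z) / (2 * (z * (starRingEnd ℂ) z))) := by
        rw [← e1, ← e2]; push_cast; ring
      rw [e3, e1]
      simp only [hf, map_sub, map_mul, map_div₀, map_add, map_one, Complex.conj_conj]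
      field_simp
      ring
    rw [h2, Complex.re_ofReal_mul, h1, mul_zero]
  have hUconn : IsConnected U := ⟨⟨1/2, by
    constructor
    · rw [mem_ball_zero_iff]; norm_num
    · show (0 : ℝ) < ((1 : ℂ) / 2).re
      norm_num⟩, hUc.isPreconnected⟩
  obtain ⟨K, hK⟩ := (hfd.analyticOnNhd hUo).eq_const_of_re_eq_const hfre hUo hUconn
  -- K = 0
  have hK0 : K = 0 := by
    have hineq : ∀ ρ : ℝ, 0 < ρ → ρ < 1 →
        ‖K‖ ^ 2 * ρ ^ 2 ≤ ‖c‖ ^ 2 * (12 + 4 * C₀) * (1 - ρ) := by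
      intro ρ h0 h1
      have hρU : (ρ : ℂ) ∈ U := by
        constructor
        · rw [mem_ball_zero_iff, Complex.norm_real, Real.norm_eq_abs, abs_of_pos h0]; exact h1
        · simpa using h0
      have hρ0 : (ρ : ℂ) ≠ 0 := by exact_mod_cast h0.ne'
      have h2 := (limit_ineq hP hP0 hD hD0 hD1 hb c hρU.1 hρ0).1
      have h3 := hK _ hρU
      have hnρ : ‖(ρ : ℂ)‖ = ρ := by rw [Complex.norm_real, Real.norm_eq_abs, abs_of_pos h0]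
      have hpos : 0 < 1 - ρ := by linarith
      have hd := hden _ hρU.1
      have h4 : N ρ / ρ = K * ρ / (1 - ρ) ^ 2 := by
        rw [← h3]; simp only [hf]; field_simp
      have h5 : ‖N ρ / ρ‖ ^ 2 = ‖K‖ ^ 2 * ρ ^ 2 / (1 - ρ) ^ 4 := by
        rw [h4, norm_div, norm_mul, norm_pow, hnρ]
        have : ‖(1 : ℂ) - ρ‖ = 1 - ρ := by
          rw [← Complex.ofReal_one, ← Complex.ofReal_sub, Complex.norm_real, Real.norm_eq_abs,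
            abs_of_pos hpos]
        rw [this]
        field_simp
      change (1 - ‖(ρ : ℂ)‖ ^ 2) * ‖N ρ / ρ‖ ^ 2 ≤ ‖c‖ ^ 2 * L0 P ρ at h2
      rw [h5, hnρ] at h2
      have hL : (1 - ρ) ^ 2 * L0 P ρ ≤ 12 + 4 * C₀ := by
        have e1 : ((1 : ℂ) + ρ) / (1 - ρ) + 1 = ((2 / (1 - ρ) : ℝ) : ℂ) := by
          push_cast; field_simp; ring
        have e2 : ((1 : ℂ) + ρ) / (1 - ρ) - 1 = ((2 * ρ / (1 - ρ) : ℝ) : ℂ) := by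
          push_cast; field_simp; ring
        have e3 : L0 P ρ = 4 * ρ ^ 2 / (1 - ρ) ^ 2 - 4 * ρ * (P ρ).re + 4 * ρ * (1 + ρ) / (1 - ρ) := by
          rw [L0, e1, e2, Complex.conj_ofReal, Complex.conj_ofReal, Complex.re_ofReal_mul,
            Complex.re_ofReal_mul, hnρ, Complex.norm_real, Real.norm_eq_abs, sq_abs]
          simp only [Complex.add_re, Complex.sub_re, Complex.one_re]
          field_simp
          ring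
        have e4 : (1 - ρ) ^ 2 * L0 P ρ = 4 * ρ ^ 2 - 4 * ρ * ((1 - ρ) ^ 2 * (P ρ).re) +
            4 * ρ * (1 + ρ) * (1 - ρ) := by
          rw [e3]; field_simp
        have e5 : -((1 - ρ) ^ 2 * (P ρ).re) ≤ C₀ := by
          have := hC ρ h0 h1
          have h7 : -(P ρ).re ≤ ‖P ρ‖ := (neg_le_abs _).trans (Complex.abs_re_le_norm _)
          have h8 : (1 - ρ) ^ 2 * (-(P ρ).re) ≤ (1 - ρ) ^ 2 * ‖P ρ‖ :=
            mul_le_mul_of_nonneg_left h7 (by positivity)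
          linarith
        have hC0 : 0 ≤ C₀ := le_trans (by positivity) (hC ρ h0 h1)
        rw [e4]
        have e6 : -(4 * ρ * ((1 - ρ) ^ 2 * (P ρ).re)) ≤ 4 * C₀ := by
          have : 4 * ρ * (-((1 - ρ) ^ 2 * (P ρ).re)) ≤ 4 * ρ * C₀ :=
            mul_le_mul_of_nonneg_left e5 (by positivity)
          nlinarith
        have e7 : 4 * ρ ^ 2 ≤ 4 := by nlinarith
        have e8 : 4 * ρ * (1 + ρ) * (1 - ρ) ≤ 8 := by nlinarith [mul_pos h0 hpos, sq_nonneg ρ]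
        linarith
      have h6 : (1 - ρ ^ 2) * (‖K‖ ^ 2 * ρ ^ 2 / (1 - ρ) ^ 4) * (1 - ρ) ^ 4 ≤
          ‖c‖ ^ 2 * L0 P ρ * (1 - ρ) ^ 4 := mul_le_mul_of_nonneg_right h2 (by positivity)
      have h7 : (1 - ρ ^ 2) * (‖K‖ ^ 2 * ρ ^ 2 / (1 - ρ) ^ 4) * (1 - ρ) ^ 4 =
          (1 - ρ) * ((1 + ρ) * (‖K‖ ^ 2 * ρ ^ 2)) := by field_simp; ring
      have h8 : ‖c‖ ^ 2 * L0 P ρ * (1 - ρ) ^ 4 ≤ (1 - ρ) * (‖c‖ ^ 2 * (12 + 4 * C₀) * (1 - ρ)) := by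
        calc ‖c‖ ^ 2 * L0 P ρ * (1 - ρ) ^ 4 = ‖c‖ ^ 2 * (1 - ρ) ^ 2 * ((1 - ρ) ^ 2 * L0 P ρ) := by
              ring
          _ ≤ ‖c‖ ^ 2 * (1 - ρ) ^ 2 * (12 + 4 * C₀) :=
              mul_le_mul_of_nonneg_left hL (by positivity)
          _ = _ := by ring
      rw [h7] at h6
      have h9 := le_of_mul_le_mul_left (h6.trans h8) hpos
      have h10 : 0 ≤ ρ * (‖K‖ ^ 2 * ρ ^ 2) := by positivity
      nlinarith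
    have hl1 : Tendsto (fun ρ : ℝ => ‖K‖ ^ 2 * ρ ^ 2) (𝓝[<] 1) (𝓝 (‖K‖ ^ 2 * 1 ^ 2)) :=
      (Continuous.tendsto (by fun_prop) 1).mono_left nhdsWithin_le_nhds
    have hl2 : Tendsto (fun ρ : ℝ => ‖c‖ ^ 2 * (12 + 4 * C₀) * (1 - ρ)) (𝓝[<] 1)
        (𝓝 (‖c‖ ^ 2 * (12 + 4 * C₀) * (1 - 1))) :=
      (Continuous.tendsto (by fun_prop) 1).mono_left nhdsWithin_le_nhds
    have h3 := le_of_tendsto_of_tendsto hl1 hl2 (by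
      filter_upwards [Ioo_mem_nhdsLT (show (0 : ℝ) < 1 by norm_num)] with ρ hρ
      exact hineq ρ hρ.1 hρ.2)
    have h4 : ‖K‖ ^ 2 = 0 := by
      have := sq_nonneg ‖K‖
      nlinarith
    simpa using h4
  have h1 := hK ζ ⟨hζ, hre⟩
  rw [hK0] at h1
  have hζ0 := hUne ζ ⟨hζ, hre⟩
  have hd := hden ζ hζ
  have h2 : (1 - ζ) ^ 2 * N ζ = 0 := by
    simp only [hf] at h1
    rwa [div_eq_zero_iff, or_iff_left (pow_ne_zero 2 hζ0)] at h1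
  exact (mul_eq_zero.1 h2).resolve_left (pow_ne_zero 2 hd)

theorem stepB (hP : DifferentiableOn ℂ P (ball 0 1)) (hP0 : P 0 = 1)
    {C₀ : ℝ} (hC : ∀ ρ : ℝ, 0 < ρ → ρ < 1 → (1 - ρ) ^ 2 * ‖P ρ‖ ≤ C₀)
    (hD : DifferentiableOn ℂ D (ball 0 1)) (hD0 : D 0 = 0) (hD1 : fderiv ℂ D 0 = 0)
    (hb : ∀ ζ η : ℂ, ‖ζ‖ ^ 2 + ‖η‖ ^ 2 < 1 →
      |((starRingEnd ℂ) ζ * (D (mk ζ η)) 0 + (starRingEnd ℂ) η * (D (mk ζ η)) 1).re| ≤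
        ‖ζ‖ ^ 2 * ((1 + ζ) / (1 - ζ)).re + ‖η‖ ^ 2 * (P ζ).re)
    {ζ : ℂ} (hζ : ζ ∈ ball (0 : ℂ) 1) : (D (mk ζ 0)) 1 = 0 := by
  have h1 : ∀ z ∈ ball (0 : ℂ) 1, 0 < z.re → (D (mk z 0)) 1 = 0 := by
    intro z hz hre
    have e1 := stepB1 hP hP0 hC hD hD0 hD1 hb 1 hz hre
    have e2 := stepB1 hP hP0 hC hD hD0 hD1 hb I hz hre
    rw [map_one] at e1
    rw [Complex.conj_I] at e2
    have e3 : I * I = -1 := Complex.I_mul_I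
    linear_combination (1/2) * e1 + (I / 2) * e2 + (-(z * (fderiv ℂ D (mk z 0) (mk 0 1)) 0) / 2 + (D (mk z 0)) 1 / 2) * e3
  refine eq_zero_of_freq (slice_diff hD 1).1 (z₀ := 1/2) (by rw [mem_ball_zero_iff]; norm_num) ?_ ζ hζ
  have : ∀ᶠ z in 𝓝 (1/2 : ℂ), z ∈ ball (0 : ℂ) 1 ∧ 0 < z.re := by
    apply IsOpen.mem_nhds (isOpen_ball.inter (isOpen_lt continuous_const Complex.continuous_re))
    constructor
    · rw [mem_ball_zero_iff]; norm_num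
    · show (0 : ℝ) < ((1 : ℂ) / 2).re
      norm_num
  have h2 : ∀ᶠ z in 𝓝[≠] (1/2 : ℂ), (D (mk z 0)) 1 = 0 := by
    filter_upwards [this.filter_mono nhdsWithin_le_nhds] with z hz
    exact h1 z hz.1 hz.2
  exact h2.frequently

end
end Pool.Agent.Helper404.Spir
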