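import Mathlib
import Pool.Agent.Helper404.Spir.StepAB
set_option autoImplicit false
open Complex Metric Set Filter Topology Asymptotics

namespace Pool.Agent.Helper404.Spir

theorem slice2_diff {D : E → E} (hD : DifferentiableOn ℂ D (ball 0 1)) (i : Fin 2) (ζ : ℂ) :
    DifferentiableOn ℂ (fun η => (D (mk ζ η)) i) (ball 0 (Real.sqrt (1 - ‖ζ‖ ^ 2))) := by
  have hmaps : MapsTo (fun η : ℂ => mk ζ η) (ball 0 (Real.sqrt (1 - ‖ζ‖ ^ 2)))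
      (ball (0 : E) 1) := by
    intro η hη
    show mk ζ η ∈ ball (0 : E) 1
    rw [mk_mem]
    have h1 : ‖η‖ < Real.sqrt (1 - ‖ζ‖ ^ 2) := by simpa using hη
    rw [Real.lt_sqrt (norm_nonneg _)] at h1
    linarith
  have hl : DifferentiableOn ℂ (fun η : ℂ => mk ζ η) (ball 0 (Real.sqrt (1 - ‖ζ‖ ^ 2))) := by
    have : (fun η : ℂ => mk ζ η) = fun η : ℂ => ζ • mk 1 0 + η • mk 0 1 := by
      funext η; rw [mk_eq]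
    rw [this]; fun_prop
  exact (EuclideanSpace.proj (𝕜 := ℂ) i).differentiable.comp_differentiableOn (hD.comp hl hmaps)

theorem slice1_diff {D : E → E} (hD : DifferentiableOn ℂ D (ball 0 1)) (i : Fin 2) (η : ℂ) :
    DifferentiableOn ℂ (fun ζ => (D (mk ζ η)) i) (ball 0 (Real.sqrt (1 - ‖η‖ ^ 2))) := by
  have hmaps : MapsTo (fun ζ : ℂ => mk ζ η) (ball 0 (Real.sqrt (1 - ‖η‖ ^ 2)))
      (ball (0 : E) 1) := by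
    intro ζ hζ
    show mk ζ η ∈ ball (0 : E) 1
    rw [mk_mem]
    have h1 : ‖ζ‖ < Real.sqrt (1 - ‖η‖ ^ 2) := by simpa using hζ
    rw [Real.lt_sqrt (norm_nonneg _)] at h1
    linarith
  have hl : DifferentiableOn ℂ (fun ζ : ℂ => mk ζ η) (ball 0 (Real.sqrt (1 - ‖η‖ ^ 2))) := by
    have : (fun ζ : ℂ => mk ζ η) = fun ζ : ℂ => ζ • mk 1 0 + η • mk 0 1 := by
      funext ζ; rw [mk_eq]
    rw [this]; fun_prop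
  exact (EuclideanSpace.proj (𝕜 := ℂ) i).differentiable.comp_differentiableOn (hD.comp hl hmaps)

theorem den_ne' {ω : ℂ} (hω : ω ∈ ball (0 : ℂ) 1) : (1 : ℂ) - ω ≠ 0 := by
  intro h0
  have h1 : ‖ω‖ < 1 := by simpa using hω
  have h2 : ω = 1 := by linear_combination -h0
  rw [h2] at h1; simp at h1

theorem p_re' {ζ : ℂ} (hζ : ζ ∈ ball (0 : ℂ) 1) :
    ‖ζ‖ ^ 2 * ((1 + ζ) / (1 - ζ)).re = (1 - ‖ζ‖ ^ 2) * ‖ζ / (1 - ζ)‖ ^ 2 := by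
  have hd := den_ne' hζ
  have hn : 0 < Complex.normSq (1 - ζ) := Complex.normSq_pos.2 hd
  rw [norm_div, div_pow, ← Complex.normSq_eq_norm_sq, ← Complex.normSq_eq_norm_sq,
    Complex.div_re]
  field_simp
  simp only [Complex.normSq_apply, Complex.add_re, Complex.sub_re, Complex.one_re,
    Complex.add_im, Complex.sub_im, Complex.one_im]
  ring

section
variable {P : ℂ → ℂ} {D : E → E}

theorem U_diff (hP : DifferentiableOn ℂ P (ball 0 1)) {ζ : ℂ} (hζ : ζ ∈ ball (0 : ℂ) 1) :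
    DifferentiableAt ℝ (fun ζ => (P ζ).re + ‖ζ / (1 - ζ)‖ ^ 2) ζ := by
  have h1 : DifferentiableAt ℝ P ζ :=
    (hP.differentiableAt (isOpen_ball.mem_nhds hζ)).restrictScalars ℝ
  have h2 : DifferentiableAt ℝ (fun ζ => (P ζ).re) ζ :=
    Complex.reCLM.differentiableAt.comp ζ h1
  have h3 : DifferentiableAt ℂ (fun ζ : ℂ => ζ / (1 - ζ)) ζ :=
    DifferentiableAt.div (by fun_prop) (by fun_prop) (den_ne' hζ)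
  exact h2.add ((h3.restrictScalars ℝ).norm_sq ℝ)

theorem U_littleO (hP : DifferentiableOn ℂ P (ball 0 1))
    (hU : ∀ ζ ∈ ball (0 : ℂ) 1, 0 ≤ (P ζ).re + ‖ζ / (1 - ζ)‖ ^ 2)
    {ζ₁ : ℂ} (hζ : ζ₁ ∈ ball (0 : ℂ) 1) (h0 : (P ζ₁).re + ‖ζ₁ / (1 - ζ₁)‖ ^ 2 = 0) :
    (fun ζ => (P ζ).re + ‖ζ / (1 - ζ)‖ ^ 2) =o[𝓝 ζ₁] (fun ζ => ζ - ζ₁) := by
  refine isLittleO_of_nonneg (U_diff hP hζ) h0 ?_
  filter_upwards [isOpen_ball.mem_nhds hζ] with ζ hζ'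
  exact hU ζ hζ'

theorem bound_AB (hb : ∀ ζ η : ℂ, ‖ζ‖ ^ 2 + ‖η‖ ^ 2 < 1 →
      |((starRingEnd ℂ) ζ * (D (mk ζ η)) 0 + (starRingEnd ℂ) η * (D (mk ζ η)) 1).re| ≤
        ‖ζ‖ ^ 2 * ((1 + ζ) / (1 - ζ)).re + ‖η‖ ^ 2 * (P ζ).re) (ζ : ℂ) :
    ∀ η ∈ ball (0 : ℂ) (Real.sqrt (1 - ‖ζ‖ ^ 2)),
      |((starRingEnd ℂ) ζ * (D (mk ζ η)) 0 + (starRingEnd ℂ) η * (D (mk ζ η)) 1).re| ≤
        ‖ζ‖ ^ 2 * ((1 + ζ) / (1 - ζ)).re + ‖η‖ ^ 2 * (P ζ).re := by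
  intro η hη
  apply hb
  have h1 : ‖η‖ < Real.sqrt (1 - ‖ζ‖ ^ 2) := by simpa using hη
  rw [Real.lt_sqrt (norm_nonneg _)] at h1
  linarith

theorem stepC (hP : DifferentiableOn ℂ P (ball 0 1)) (hP0 : P 0 = 1)
    {C₀ : ℝ} (hC : ∀ ρ : ℝ, 0 < ρ → ρ < 1 → (1 - ρ) ^ 2 * ‖P ρ‖ ≤ C₀)
    (hU : ∀ ζ ∈ ball (0 : ℂ) 1, 0 ≤ (P ζ).re + ‖ζ / (1 - ζ)‖ ^ 2)
    {ζ₀ : ℂ} (hζ₀ : ζ₀ ∈ ball (0 : ℂ) 1)
    (hγ : ∃ᶠ ζ in 𝓝[≠] ζ₀, (P ζ).re + ‖ζ / (1 - ζ)‖ ^ 2 = 0)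
    (hD : DifferentiableOn ℂ D (ball 0 1)) (hD0 : D 0 = 0) (hD1 : fderiv ℂ D 0 = 0)
    (hb : ∀ ζ η : ℂ, ‖ζ‖ ^ 2 + ‖η‖ ^ 2 < 1 →
      |((starRingEnd ℂ) ζ * (D (mk ζ η)) 0 + (starRingEnd ℂ) η * (D (mk ζ η)) 1).re| ≤
        ‖ζ‖ ^ 2 * ((1 + ζ) / (1 - ζ)).re + ‖η‖ ^ 2 * (P ζ).re)
    {ζ : ℂ} (hζ : ζ ∈ ball (0 : ℂ) 1) : deriv (fun η => (D (mk ζ η)) 1) 0 = 0 := by
  set κ : ℂ → ℂ := fun ζ => (fderiv ℂ D (mk ζ 0) (mk 0 1)) 1 with hκ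
  have hκd : DifferentiableOn ℂ κ (ball 0 1) := (slice_diff hD 1).2
  have hder : ∀ z ∈ ball (0 : ℂ) 1, deriv (fun η => (D (mk z η)) 1) 0 = κ z := by
    intro z hz
    have hmem : mk z 0 ∈ ball (0 : E) 1 := by
      rw [mk_mem]
      have hζ1 : ‖z‖ < 1 := by simpa using hz
      simp only [norm_zero]
      nlinarith [norm_nonneg z]
    have h1 : HasFDerivAt D (fderiv ℂ D (mk z 0)) (mk z 0) :=
      (hD.differentiableAt (isOpen_ball.mem_nhds hmem)).hasFDerivAt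
    have h2 : HasDerivAt (fun η : ℂ => mk z η) (mk 0 1) 0 := by
      have h3 : (fun η : ℂ => mk z η) = fun η : ℂ => z • mk 1 0 + η • mk 0 1 := by
        funext η; rw [mk_eq]
      rw [h3]
      have := ((hasDerivAt_id (0 : ℂ)).smul_const (mk 0 1)).const_add (z • mk 1 0)
      rw [one_smul] at this
      exact this
    have h4 : HasDerivAt (fun η : ℂ => D (mk z η)) (fderiv ℂ D (mk z 0) (mk 0 1)) 0 :=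
      h1.comp_hasDerivAt (0 : ℂ) h2
    have h5 : HasDerivAt (fun η : ℂ => (D (mk z η)) 1)
        ((fderiv ℂ D (mk z 0) (mk 0 1)) 1) 0 :=
      (EuclideanSpace.proj (𝕜 := ℂ) 1 : E →L[ℂ] ℂ).hasFDerivAt.comp_hasDerivAt (0 : ℂ) h4
    exact h5.deriv
  have hre : ∀ z ∈ ball (0 : ℂ) 1, |(κ z).re| ≤ 1 * ((P z).re + ‖z / (1 - z)‖ ^ 2) := by
    intro z hz
    have hz1 : ‖z‖ < 1 := by simpa using hz
    have hz2 : 0 < 1 - ‖z‖ ^ 2 := by nlinarith [norm_nonneg z]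
    have hR : 0 < Real.sqrt (1 - ‖z‖ ^ 2) := Real.sqrt_pos.2 hz2
    have h1 := slice_deriv hR (slice2_diff hD 0 z) (slice2_diff hD 1 z)
      (stepA hP hP0 hD hD0 hD1 hb hz) (stepB hP hP0 hC hD hD0 hD1 hb hz) z (bound_AB hb z)
    rw [hder z hz, Real.sq_sqrt hz2.le, p_re' hz, ← mul_add] at h1
    have := le_of_mul_le_mul_left h1 hz2
    linarith
  have hzero : ∀ z ∈ ball (0 : ℂ) 1, deriv κ z = 0 := by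
    refine eq_zero_of_freq (hκd.deriv isOpen_ball) hζ₀ ?_
    have hev : ∀ᶠ z in 𝓝[≠] ζ₀, z ∈ ball (0 : ℂ) 1 :=
      (isOpen_ball.mem_nhds hζ₀ : ball (0 : ℂ) 1 ∈ 𝓝 ζ₀) |> fun h => nhdsWithin_le_nhds h
    refine (hγ.and_eventually hev).mono ?_
    rintro z ⟨hz0, hz⟩
    refine deriv_zero_of_re (hκd.differentiableAt (isOpen_ball.mem_nhds hz))
      (U_littleO hP hU hz hz0) (C := 1) ?_
    filter_upwards [isOpen_ball.mem_nhds hz] with w hw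
    exact hre w hw
  have hconst : κ ζ = κ 0 := by
    apply isOpen_ball.is_const_of_deriv_eq_zero (convex_ball (0 : ℂ) 1).isPreconnected hκd ?_ hζ
      (by simp)
    intro z hz
    exact hzero z hz
  rw [hder ζ hζ, hconst]
  have h0 : mk (0 : ℂ) 0 = 0 := by ext i; fin_cases i <;> simp [mk]
  simp only [hκ, h0, hD1]
  rfl

theorem stepD (hP : DifferentiableOn ℂ P (ball 0 1)) (hP0 : P 0 = 1)
    {C₀ : ℝ} (hC : ∀ ρ : ℝ, 0 < ρ → ρ < 1 → (1 - ρ) ^ 2 * ‖P ρ‖ ≤ C₀)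
    (hU : ∀ ζ ∈ ball (0 : ℂ) 1, 0 ≤ (P ζ).re + ‖ζ / (1 - ζ)‖ ^ 2)
    {ζ₀ : ℂ} (hζ₀ : ζ₀ ∈ ball (0 : ℂ) 1)
    (hγ : ∃ᶠ ζ in 𝓝[≠] ζ₀, (P ζ).re + ‖ζ / (1 - ζ)‖ ^ 2 = 0)
    (hD : DifferentiableOn ℂ D (ball 0 1)) (hD0 : D 0 = 0) (hD1 : fderiv ℂ D 0 = 0)
    (hb : ∀ ζ η : ℂ, ‖ζ‖ ^ 2 + ‖η‖ ^ 2 < 1 →
      |((starRingEnd ℂ) ζ * (D (mk ζ η)) 0 + (starRingEnd ℂ) η * (D (mk ζ η)) 1).re| ≤
        ‖ζ‖ ^ 2 * ((1 + ζ) / (1 - ζ)).re + ‖η‖ ^ 2 * (P ζ).re)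
    {η : ℂ} (hη0 : η ≠ 0) {ζ₁ : ℂ} (hζ₁ : ζ₁ ∈ ball (0 : ℂ) (Real.sqrt (1 - ‖η‖ ^ 2)))
    (h0 : (P ζ₁).re + ‖ζ₁ / (1 - ζ₁)‖ ^ 2 = 0) :
    (D (mk ζ₁ η)) 0 = 0 ∧ (D (mk ζ₁ η)) 1 / η = 0 := by
  have hlt : ∀ z ∈ ball (0 : ℂ) (Real.sqrt (1 - ‖η‖ ^ 2)),
      z ∈ ball (0 : ℂ) 1 ∧ ‖η‖ < Real.sqrt (1 - ‖z‖ ^ 2) := by
    intro z hz
    have h1 : ‖z‖ < Real.sqrt (1 - ‖η‖ ^ 2) := by simpa using hz
    rw [Real.lt_sqrt (norm_nonneg _)] at h1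
    constructor
    · rw [mem_ball_zero_iff]
      nlinarith [norm_nonneg z, sq_nonneg ‖η‖]
    · rw [Real.lt_sqrt (norm_nonneg _)]
      linarith
  have hnb : ball (0 : ℂ) (Real.sqrt (1 - ‖η‖ ^ 2)) ∈ 𝓝 ζ₁ := isOpen_ball.mem_nhds hζ₁
  have hA : DifferentiableAt ℂ (fun ζ => (D (mk ζ η)) 0) ζ₁ :=
    (slice1_diff hD 0 η).differentiableAt hnb
  have hB : DifferentiableAt ℂ (fun ζ => (D (mk ζ η)) 1 / η) ζ₁ :=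
    ((slice1_diff hD 1 η).differentiableAt hnb).div_const η
  refine pair_zero hA hB ?_
  have hUo := U_littleO hP hU (hlt ζ₁ hζ₁).1 h0
  refine IsBigO.trans_isLittleO ?_ hUo
  -- bound of the factor
  set F : ℂ → ℝ := fun z => 2 * (1 - ‖z‖ ^ 2) * ‖η‖ / (Real.sqrt (1 - ‖z‖ ^ 2) - ‖η‖) with hF
  have hFc : ContinuousAt F ζ₁ := by
    refine ContinuousAt.div (by fun_prop) (by fun_prop) ?_
    have := (hlt ζ₁ hζ₁).2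
    linarith
  have hFb : ∀ᶠ z in 𝓝 ζ₁, F z < F ζ₁ + 1 := hFc.eventually_lt_const (by linarith)
  refine IsBigO.of_bound (F ζ₁ + 1) ?_
  filter_upwards [hFb, hnb] with z hz1 hz2
  obtain ⟨hz3, hz4⟩ := hlt z hz2
  have hzn : ‖z‖ < 1 := by simpa using hz3
  have hz5 : 0 < 1 - ‖z‖ ^ 2 := by nlinarith [norm_nonneg z]
  have h1 := slice_norm (slice2_diff hD 0 z) (slice2_diff hD 1 z)
      (stepA hP hP0 hD hD0 hD1 hb hz3) (stepB hP hP0 hC hD hD0 hD1 hb hz3)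
      (stepC hP hP0 hC hU hζ₀ hγ hD hD0 hD1 hb hz3) z (bound_AB hb z)
      (η := η) (by simpa using hz4) hη0
  have e1 : ((Real.sqrt (1 - ‖z‖ ^ 2) : ℝ) : ℂ) ^ 2 = 1 - z * (starRingEnd ℂ) z := by
    rw [← Complex.ofReal_pow, Real.sq_sqrt hz5.le]
    push_cast
    rw [← Complex.mul_conj']
  rw [e1, Real.sq_sqrt hz5.le, p_re' hz3, ← mul_add] at h1
  have hUz := hU z hz3
  rw [Real.norm_eq_abs, abs_of_nonneg hUz]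
  have hUz' : 0 ≤ ‖z / (1 - z)‖ ^ 2 + (P z).re := by linarith
  calc ‖(starRingEnd ℂ) z * (D (mk z η)) 0 + (1 - z * (starRingEnd ℂ) z) * ((D (mk z η)) 1 / η)‖
      ≤ 2 * ((1 - ‖z‖ ^ 2) * (‖z / (1 - z)‖ ^ 2 + (P z).re)) * ‖η‖ /
          (Real.sqrt (1 - ‖z‖ ^ 2) - ‖η‖) := h1
    _ = F z * (‖z / (1 - z)‖ ^ 2 + (P z).re) := by simp only [hF]; ring
    _ ≤ (F ζ₁ + 1) * (‖z / (1 - z)‖ ^ 2 + (P z).re) := mul_le_mul_of_nonneg_right hz1.le hUz'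
    _ = _ := by ring

theorem ext_main (hP : DifferentiableOn ℂ P (ball 0 1)) (hP0 : P 0 = 1)
    {C₀ : ℝ} (hC : ∀ ρ : ℝ, 0 < ρ → ρ < 1 → (1 - ρ) ^ 2 * ‖P ρ‖ ≤ C₀)
    (hU : ∀ ζ ∈ ball (0 : ℂ) 1, 0 ≤ (P ζ).re + ‖ζ / (1 - ζ)‖ ^ 2)
    {ζ₀ : ℂ} (hζ₀ : ζ₀ ∈ ball (0 : ℂ) 1)
    (hγ : ∃ᶠ ζ in 𝓝[≠] ζ₀, (P ζ).re + ‖ζ / (1 - ζ)‖ ^ 2 = 0)
    (hD : DifferentiableOn ℂ D (ball 0 1)) (hD0 : D 0 = 0) (hD1 : fderiv ℂ D 0 = 0)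
    (hb : ∀ ζ η : ℂ, ‖ζ‖ ^ 2 + ‖η‖ ^ 2 < 1 →
      |((starRingEnd ℂ) ζ * (D (mk ζ η)) 0 + (starRingEnd ℂ) η * (D (mk ζ η)) 1).re| ≤
        ‖ζ‖ ^ 2 * ((1 + ζ) / (1 - ζ)).re + ‖η‖ ^ 2 * (P ζ).re) :
    ∀ z ∈ ball (0 : E) 1, D z = 0 := by
  have hζ₀1 : ‖ζ₀‖ < 1 := by simpa using hζ₀
  have hr0 : 0 < 1 - ‖ζ₀‖ ^ 2 := by nlinarith [norm_nonneg ζ₀]
  -- small η
  have hsmall : ∀ η : ℂ, η ≠ 0 → ‖η‖ ^ 2 < 1 - ‖ζ₀‖ ^ 2 → ∀ i : Fin 2,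
      ∀ ζ ∈ ball (0 : ℂ) (Real.sqrt (1 - ‖η‖ ^ 2)), (D (mk ζ η)) i = 0 := by
    intro η hη0 hη i
    have hmem : ζ₀ ∈ ball (0 : ℂ) (Real.sqrt (1 - ‖η‖ ^ 2)) := by
      rw [mem_ball_zero_iff, Real.lt_sqrt (norm_nonneg _)]
      linarith
    refine eq_zero_of_freq (slice1_diff hD i η) hmem ?_
    have hev : ∀ᶠ z in 𝓝[≠] ζ₀, z ∈ ball (0 : ℂ) (Real.sqrt (1 - ‖η‖ ^ 2)) :=
      nhdsWithin_le_nhds (isOpen_ball.mem_nhds hmem)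
    refine (hγ.and_eventually hev).mono ?_
    rintro z ⟨hz0, hz⟩
    obtain ⟨h1, h2⟩ := stepD hP hP0 hC hU hζ₀ hγ hD hD0 hD1 hb hη0 hz hz0
    fin_cases i
    · exact h1
    · exact (div_eq_zero_iff.1 h2).resolve_right hη0
  have hall : ∀ ζ η : ℂ, ‖ζ‖ ^ 2 + ‖η‖ ^ 2 < 1 → ∀ i : Fin 2, (D (mk ζ η)) i = 0 := by
    intro ζ η hζη i
    have hR : 0 < 1 - ‖ζ‖ ^ 2 := by nlinarith [sq_nonneg ‖η‖]
    refine eq_zero_of_freq (slice2_diff hD i ζ) (z₀ := 0) (by simpa using hR) ?_ η (by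
      rw [mem_ball_zero_iff, Real.lt_sqrt (norm_nonneg _)]; linarith)
    have hev : ∀ᶠ w : ℂ in 𝓝[≠] 0, w ∈ ball (0 : ℂ)
        (Real.sqrt (min (1 - ‖ζ₀‖ ^ 2) (1 - ‖ζ‖ ^ 2))) :=
      nhdsWithin_le_nhds (ball_mem_nhds _ (Real.sqrt_pos.2 (lt_min hr0 hR)))
    have hne : ∀ᶠ w : ℂ in 𝓝[≠] 0, w ≠ 0 := self_mem_nhdsWithin
    refine Eventually.frequently ?_
    filter_upwards [hev, hne] with w hw hw0
    rw [mem_ball_zero_iff, Real.lt_sqrt (norm_nonneg _)] at hw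
    have h1 := hw.trans_le (min_le_left _ _)
    have h2 := hw.trans_le (min_le_right _ _)
    refine hsmall w hw0 h1 i ζ ?_
    rw [mem_ball_zero_iff, Real.lt_sqrt (norm_nonneg _)]
    linarith
  intro z hz
  rw [← mk_self z] at hz ⊢
  rw [mk_mem] at hz
  ext i
  rw [hall _ _ hz i]
  rfl

end
end Pool.Agent.Helper404.Spir
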