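import Mathlib
import Pool.Agent.Helper404.Spir.Ext
import Pool.Agent.Helper404.Spir.Explicit
set_option autoImplicit false
open Complex Metric Set Filter Topology Asymptotics

namespace Pool.Agent.Helper404.Spir

/-- the class of normalised starlike maps -/
def SC : Set (E → E) := {g : E → E | DifferentiableOn ℂ g (Metric.ball (0 : E) 1) ∧
        Set.InjOn g (Metric.ball (0 : E) 1) ∧
        g 0 = 0 ∧
        fderiv ℂ g 0 = ContinuousLinearMap.id ℂ E ∧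
        (∀ z ∈ Metric.ball (0 : E) 1, ∃ e : E ≃L[ℂ] E, (e : E →L[ℂ] E) = fderiv ℂ g z) ∧
        (∀ z ∈ Metric.ball (0 : E) 1, z ≠ 0 →
          0 < (inner ℂ z ((fderiv ℂ g z).inverse ((ContinuousLinearMap.id ℂ E) (g z)))).re) ∧
        (∀ z, z ∉ Metric.ball (0 : E) 1 → g z = 0)}

/-- the Caratheodory class -/
def NC : Set (E → E) := {h : E → E | DifferentiableOn ℂ h (Metric.ball (0 : E) 1) ∧
        h 0 = 0 ∧
        fderiv ℂ h 0 = ContinuousLinearMap.id ℂ E ∧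
        (∀ z ∈ Metric.ball (0 : E) 1, z ≠ 0 → 0 < (inner ℂ z (h z)).re) ∧
        (∀ z, z ∉ Metric.ball (0 : E) 1 → h z = 0)}

noncomputable def pp (ζ : ℂ) : ℂ := (1 + ζ) / (1 - ζ)

noncomputable def fe (e : ℝ) : E → E :=
  (ball (0 : E) 1).indicator (fun z => mk (φ (z 0)) (z 1 * (u (z 0) * (1 + e * v (Y (z 0))))))

theorem u_ne (ζ : ℂ) : u ζ ≠ 0 := Complex.exp_ne_zero _

theorem fe_mem (e : ℝ) (h : ∀ y : ℂ, 13 * ‖y‖ ^ 2 < 41 * y.re - y.im →
    ‖(e : ℂ) * v y‖ ≤ 1 / 2 ∧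
    ((e : ℂ) * V y / (1 + e * v y)).re ≤ (y.re / ‖y‖ ^ 2) ^ 2) :
    fe e ∈ SC ∧ ∀ z ∈ ball (0 : E) 1, (fderiv ℂ (fe e) z).inverse (fe e z) =
      mk (z 0 * pp (z 0)) (z 1 * (P (z 0) - e * V (Y (z 0)) / (1 + e * v (Y (z 0))))) := by
  have hne : ∀ ζ ∈ ball (0 : ℂ) 1, (1 : ℂ) + e * v (Y ζ) ≠ 0 := by
    intro ζ hζ h0
    have h1 := (h (Y ζ) (Y_region hζ)).1
    have h2 : (e : ℂ) * v (Y ζ) = -1 := by linear_combination h0
    rw [h2] at h1
    norm_num at h1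
  have hψd : DifferentiableOn ℂ (fun ζ => u ζ * (1 + e * v (Y ζ))) (ball 0 1) :=
    u_diff.mul ((v_Y_diff.const_mul _).const_add 1)
  refine toric_mem (φ := φ) (ψ := fun ζ => u ζ * (1 + e * v (Y ζ))) (p := pp)
    (q := fun ζ => P ζ - e * V (Y ζ) / (1 + e * v (Y ζ)))
    φ_diff φ_inj φ_zero φ_deriv_zero (fun ζ hζ => φ_deriv_ne hζ) hψd
    (fun ζ hζ => mul_ne_zero (u_ne ζ) (hne ζ hζ)) ?_ (fun ζ hζ => φ_deriv hζ) ?_
    (fun ζ hζ => p_pos hζ) ?_ rfl
  · simp [u_zero, v_Y_zero]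
  · intro ζ hζ
    have hnb : ball (0 : ℂ) 1 ∈ 𝓝 ζ := isOpen_ball.mem_nhds hζ
    have d1 : HasDerivAt u (deriv u ζ) ζ := (u_diff.differentiableAt hnb).hasDerivAt
    have d2 : HasDerivAt (fun ζ => v (Y ζ)) (deriv (fun ζ => v (Y ζ)) ζ) ζ :=
      (v_Y_diff.differentiableAt hnb).hasDerivAt
    have d3 : HasDerivAt (fun ζ => u ζ * (1 + e * v (Y ζ)))
        (deriv u ζ * (1 + e * v (Y ζ)) + u ζ * (e * deriv (fun ζ => v (Y ζ)) ζ)) ζ :=
      d1.fun_mul ((d2.const_mul (e : ℂ)).const_add 1)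
    rw [d3.deriv]
    have h1 := u_deriv hζ
    have h2 := v_Y_deriv hζ
    have h3 := hne ζ hζ
    have h4 : u ζ * (1 + e * v (Y ζ)) * (1 - (P ζ - e * V (Y ζ) / (1 + e * v (Y ζ)))) =
        u ζ * (1 - P ζ) * (1 + e * v (Y ζ)) + u ζ * (e * V (Y ζ)) := by
      field_simp
      ring
    rw [h4, h1, ← h2, pp]
    ring
  · intro ζ hζ
    have h1 := (h (Y ζ) (Y_region hζ)).2
    have h2 := Y_U hζ
    have h3 := p_re hζ
    have hζ1 : ‖ζ‖ < 1 := by simpa using hζ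
    have hpos : 0 < 1 - ‖ζ‖ ^ 2 := by nlinarith [norm_nonneg ζ]
    have h4 : ‖ζ‖ ^ 2 * (pp ζ).re = (1 - ‖ζ‖ ^ 2) * ‖ζ / (1 - ζ)‖ ^ 2 := by
      rw [mul_comm]; exact h3
    rw [h4, ← mul_add]
    apply mul_nonneg hpos.le
    rw [Complex.sub_re]
    linarith

theorem inner_re (z w : E) : (inner ℂ z w).re =
    ((starRingEnd ℂ) (z 0) * w 0 + (starRingEnd ℂ) (z 1) * w 1).re := by
  rw [PiLp.inner_apply, Fin.sum_univ_two]
  simp only [RCLike.inner_apply]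
  rw [mul_comm (w 0), mul_comm (w 1)]

/-- the h-map -/
noncomputable def hh : E → E :=
  (ball (0 : E) 1).indicator (fun z => mk (z 0 * pp (z 0)) (z 1 * P (z 0)))

theorem hh_hasFDeriv {z : E} (hz : z ∈ ball (0 : E) 1) :
    HasFDerivAt (fun z : E => mk (z 0 * pp (z 0)) (z 1 * P (z 0)))
      (((deriv (fun ζ => ζ * pp ζ) (z 0)) • (EuclideanSpace.proj 0 : E →L[ℂ] ℂ)).smulRight (mk 1 0) +
       (z 1 • (deriv P (z 0) • (EuclideanSpace.proj 0 : E →L[ℂ] ℂ)) +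
         P (z 0) • (EuclideanSpace.proj 1 : E →L[ℂ] ℂ)).smulRight (mk 0 1)) z := by
  have hz0 := norm0_lt hz 0
  have hppd : DifferentiableOn ℂ (fun ζ => ζ * pp ζ) (ball 0 1) := by
    refine differentiableOn_id.mul ?_
    exact DifferentiableOn.div (by fun_prop) (by fun_prop) (fun ζ hζ => den_ne' hζ)
  have h1 : HasDerivAt (fun ζ => ζ * pp ζ) (deriv (fun ζ => ζ * pp ζ) (z 0)) (z 0) :=
    (hppd.differentiableAt (isOpen_ball.mem_nhds hz0)).hasDerivAt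
  have h2 : HasDerivAt P (deriv P (z 0)) (z 0) :=
    (P_diff.differentiableAt (isOpen_ball.mem_nhds hz0)).hasDerivAt
  have p0 : HasFDerivAt (fun z : E => z 0) (EuclideanSpace.proj 0 : E →L[ℂ] ℂ) z :=
    (EuclideanSpace.proj 0 : E →L[ℂ] ℂ).hasFDerivAt
  have p1 : HasFDerivAt (fun z : E => z 1) (EuclideanSpace.proj 1 : E →L[ℂ] ℂ) z :=
    (EuclideanSpace.proj 1 : E →L[ℂ] ℂ).hasFDerivAt
  have e : (fun z : E => mk (z 0 * pp (z 0)) (z 1 * P (z 0))) =
      fun z : E => (z 0 * pp (z 0)) • mk 1 0 + (z 1 * P (z 0)) • mk 0 1 := by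
    funext z; rw [mk_eq]
  rw [e]
  have h3 : HasFDerivAt (fun z : E => z 0 * pp (z 0))
      ((deriv (fun ζ => ζ * pp ζ) (z 0)) • (EuclideanSpace.proj 0 : E →L[ℂ] ℂ)) z := by
    have h5 := h1.comp_hasFDerivAt z p0
    exact h5
  have h4 : HasFDerivAt (fun z : E => z 1 * P (z 0))
      (z 1 • (deriv P (z 0) • (EuclideanSpace.proj 0 : E →L[ℂ] ℂ)) +
         P (z 0) • (EuclideanSpace.proj 1 : E →L[ℂ] ℂ)) z := by
    have h5 := h2.comp_hasFDerivAt z p0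
    have h6 := p1.fun_mul h5
    exact h6
  exact (h3.smul_const (mk 1 0)).add (h4.smul_const (mk 0 1))

theorem hh_mem (hf : fe 0 ∈ SC) (hinv : ∀ z ∈ ball (0 : E) 1,
    (fderiv ℂ (fe 0) z).inverse (fe 0 z) = mk (z 0 * pp (z 0)) (z 1 * P (z 0))) : hh ∈ NC := by
  have hev : ∀ z ∈ ball (0 : E) 1, hh =ᶠ[𝓝 z] fun z : E => mk (z 0 * pp (z 0)) (z 1 * P (z 0)) := by
    intro z hz
    filter_upwards [isOpen_ball.mem_nhds hz] with w hw
    rw [hh, Set.indicator_of_mem hw]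
  have h0 : (0 : E) ∈ ball (0 : E) 1 := by simp
  refine ⟨?_, ?_, ?_, ?_, ?_⟩
  · intro z hz
    exact ((hh_hasFDeriv hz).congr_of_eventuallyEq (hev z hz)).differentiableAt.differentiableWithinAt
  · rw [hh, Set.indicator_of_mem h0]
    ext i; fin_cases i <;> simp [mk]
  · rw [((hh_hasFDeriv h0).congr_of_eventuallyEq (hev 0 h0)).fderiv]
    have hd1 : deriv (fun ζ => ζ * pp ζ) 0 = 1 := by
      have hppd : DifferentiableOn ℂ pp (ball 0 1) :=
        DifferentiableOn.div (by fun_prop) (by fun_prop) (fun ζ hζ => den_ne' hζ)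
      have := (hasDerivAt_id (0 : ℂ)).fun_mul
        ((hppd.differentiableAt (isOpen_ball.mem_nhds (by simp : (0 : ℂ) ∈ ball (0 : ℂ) 1))).hasDerivAt)
      have h2 := this.deriv
      simp only [id] at h2
      rw [h2]; simp [pp]
    have hP0 : P 0 = 1 := by simp [P]
    apply ContinuousLinearMap.ext
    intro w
    simp only [ContinuousLinearMap.add_apply, ContinuousLinearMap.smulRight_apply,
      ContinuousLinearMap.coe_id', id]
    ext i
    fin_cases i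
    · simp [mk, hd1]
    · simp [mk, hP0]
  · intro z hz hz0
    have h1 := hf.2.2.2.2.2.1 z hz hz0
    have h2 := hinv z hz
    change 0 < (inner ℂ z ((fderiv ℂ (fe 0) z).inverse (fe 0 z))).re at h1
    rw [h2] at h1
    rw [hh, Set.indicator_of_mem hz]
    exact h1
  · intro z hz
    rw [hh, Set.indicator_of_notMem hz]

theorem P_nonneg {ζ : ℂ} (hζ : ζ ∈ ball (0 : ℂ) 1) : 0 ≤ (P ζ).re + ‖ζ / (1 - ζ)‖ ^ 2 := by
  rw [P_U hζ]; positivity

theorem hh_extreme (hmem : hh ∈ NC) : hh ∈ NC.extremePoints ℝ := by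
  refine ⟨hmem, ?_⟩
  intro x₁ hx₁ x₂ hx₂ hseg
  obtain ⟨a, b, ha, hb, hab, hsum⟩ := hseg
  have hsum' : ∀ z, hh z = a • x₁ z + b • x₂ z := by
    intro z; rw [← hsum]; rfl
  obtain ⟨ζ₀, hζ₀, hγ⟩ := P_arc
  obtain ⟨C, hC⟩ := P_growth
  set D : E → E := fun z => (a : ℂ) • (x₁ z - hh z) with hD
  have h0 : (0 : E) ∈ ball (0 : E) 1 := by simp
  have hDd : DifferentiableOn ℂ D (ball 0 1) := (hx₁.1.sub hmem.1).const_smul (a : ℂ)
  have hD0 : D 0 = 0 := by simp only [hD, hx₁.2.1, hmem.2.1]; simp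
  have hD1 : fderiv ℂ D 0 = 0 := by
    have h1 : HasFDerivAt x₁ (ContinuousLinearMap.id ℂ E) 0 := by
      rw [← hx₁.2.2.1]
      exact (hx₁.1.differentiableAt (isOpen_ball.mem_nhds h0)).hasFDerivAt
    have h2 : HasFDerivAt hh (ContinuousLinearMap.id ℂ E) 0 := by
      rw [← hmem.2.2.1]
      exact (hmem.1.differentiableAt (isOpen_ball.mem_nhds h0)).hasFDerivAt
    have h3 := ((h1.sub h2).const_smul (a : ℂ)).fderiv
    rw [sub_self, smul_zero] at h3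
    exact h3
  have hmain := ext_main (P := P) (D := D) P_diff (by simp [P]) hC (fun ζ hζ => P_nonneg hζ) hζ₀ hγ
    hDd hD0 hD1 ?_
  · funext z
    by_cases hz : z ∈ ball (0 : E) 1
    · have h1 := hmain z hz
      simp only [hD] at h1
      have ha' : (a : ℂ) ≠ 0 := by exact_mod_cast ha.ne'
      rw [smul_eq_zero] at h1
      exact sub_eq_zero.1 (h1.resolve_left ha')
    · rw [hx₁.2.2.2.2 z hz, hmem.2.2.2.2 z hz]
  · intro ζ η hζη
    have hz : mk ζ η ∈ ball (0 : E) 1 := mk_mem.2 hζη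
    have hnn : ∀ x ∈ NC, 0 ≤ (inner ℂ (mk ζ η) (x (mk ζ η))).re := by
      intro x hx
      by_cases h : mk ζ η = 0
      · rw [h]; simp
      · exact (hx.2.2.2.1 _ hz h).le
    have e1 : ((starRingEnd ℂ) ζ * (D (mk ζ η)) 0 + (starRingEnd ℂ) η * (D (mk ζ η)) 1).re =
        a * ((inner ℂ (mk ζ η) (x₁ (mk ζ η))).re - (inner ℂ (mk ζ η) (hh (mk ζ η))).re) := by
      have := inner_re (mk ζ η) (D (mk ζ η))
      rw [mk_0, mk_1] at this
      rw [← this]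
      simp only [hD]
      rw [inner_smul_right, inner_sub_right, Complex.re_ofReal_mul, Complex.sub_re]
    have e2 : (inner ℂ (mk ζ η) (hh (mk ζ η))).re =
        ‖ζ‖ ^ 2 * ((1 + ζ) / (1 - ζ)).re + ‖η‖ ^ 2 * (P ζ).re := by
      rw [inner_re, hh, Set.indicator_of_mem hz]
      simp only [mk_0, mk_1]
      have h3 : (starRingEnd ℂ) ζ * (ζ * pp ζ) + (starRingEnd ℂ) η * (η * P ζ) =
          ((‖ζ‖ ^ 2 : ℝ) : ℂ) * pp ζ + ((‖η‖ ^ 2 : ℝ) : ℂ) * P ζ := by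
        push_cast
        rw [← Complex.conj_mul' ζ, ← Complex.conj_mul' η]; ring
      rw [h3, Complex.add_re, Complex.re_ofReal_mul, Complex.re_ofReal_mul, pp]
    have e3 : (inner ℂ (mk ζ η) (hh (mk ζ η))).re = a * (inner ℂ (mk ζ η) (x₁ (mk ζ η))).re +
        b * (inner ℂ (mk ζ η) (x₂ (mk ζ η))).re := by
      rw [hsum' (mk ζ η), inner_add_right]
      rw [show a • x₁ (mk ζ η) = (a : ℂ) • x₁ (mk ζ η) from rfl,
        show b • x₂ (mk ζ η) = (b : ℂ) • x₂ (mk ζ η) from rfl,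
        inner_smul_right, inner_smul_right, Complex.add_re, Complex.re_ofReal_mul,
        Complex.re_ofReal_mul]
    rw [e1, ← e2]
    have n1 := hnn x₁ hx₁
    have n2 := hnn x₂ hx₂
    have n3 := hnn hh hmem
    have n4 := mul_nonneg hb.le n2
    have n5 := mul_nonneg ha.le n1
    have n6 := mul_nonneg ha.le n3
    have n7 := mul_nonneg hb.le n3
    rw [abs_le]
    constructor
    · nlinarith
    · nlinarith

theorem fe0_not_extreme {ε : ℝ} (hε : 0 < ε) (h1 : fe ε ∈ SC) (h2 : fe (-ε) ∈ SC) :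
    fe 0 ∉ SC.extremePoints ℝ := by
  intro hext
  have hseg : fe 0 ∈ openSegment ℝ (fe ε) (fe (-ε)) := by
    refine ⟨1/2, 1/2, by norm_num, by norm_num, by norm_num, ?_⟩
    funext z
    by_cases hz : z ∈ ball (0 : E) 1
    · simp only [Pi.add_apply, Pi.smul_apply, fe, Set.indicator_of_mem hz]
      ext i
      fin_cases i
      · simp only [mk, PiLp.add_apply, PiLp.smul_apply]
        simp
        ring
      · simp only [mk, PiLp.add_apply, PiLp.smul_apply]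
        simp
        ring
    · simp only [Pi.add_apply, Pi.smul_apply, fe, Set.indicator_of_notMem hz]
      simp
  have heq := hext.2 h1 h2 hseg
  obtain ⟨ζ, hζ, hv⟩ := v_Y_ne
  have hζ1 : ‖ζ‖ < 1 := by simpa using hζ
  have hpos : 0 < 1 - ‖ζ‖ ^ 2 := by nlinarith [norm_nonneg ζ]
  obtain ⟨η, hη0, hη⟩ : ∃ η : ℝ, 0 < η ∧ η ^ 2 < 1 - ‖ζ‖ ^ 2 := by
    refine ⟨Real.sqrt (1 - ‖ζ‖ ^ 2) / 2, by positivity, ?_⟩
    rw [div_pow, Real.sq_sqrt hpos.le]; linarith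
  have hz : mk ζ η ∈ ball (0 : E) 1 := by
    rw [mk_mem, Complex.norm_real, Real.norm_eq_abs, sq_abs]; linarith
  have h3 := congrArg (fun x : E => x 1) (congrFun heq (mk ζ η))
  simp only [fe, Set.indicator_of_mem hz, mk_0, mk_1] at h3
  have hη' : (η : ℂ) ≠ 0 := by exact_mod_cast hη0.ne'
  have hε' : (ε : ℂ) ≠ 0 := by exact_mod_cast hε.ne'
  have h4 : (η : ℂ) * u ζ * (ε * v (Y ζ)) = 0 := by
    push_cast at h3
    linear_combination h3
  have h5 := mul_ne_zero (mul_ne_zero hη' (u_ne ζ)) (mul_ne_zero hε' hv)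
  exact h5 h4

theorem main : ∃ f ∈ SC, f ∉ SC.extremePoints ℝ ∧
    (ball (0 : E) 1).indicator (fun z => (fderiv ℂ f z).inverse (f z)) ∈ NC.extremePoints ℝ := by
  obtain ⟨ε, hε, hin⟩ := ineq_y
  have hp : fe ε ∈ SC := (fe_mem ε (fun y hy => ⟨(hin y hy).1, (hin y hy).2.1⟩)).1
  have hm : fe (-ε) ∈ SC := by
    refine (fe_mem (-ε) (fun y hy => ?_)).1
    obtain ⟨h1, _, h3⟩ := hin y hy
    push_cast
    constructor
    · rw [neg_mul, norm_neg]; exact h1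
    · have : -(ε : ℂ) * V y / (1 + -(ε : ℂ) * v y) = -((ε : ℂ) * V y / (1 - ε * v y)) := by
        rw [neg_mul, neg_mul, ← sub_eq_add_neg, neg_div]
      rw [this, Complex.neg_re]; exact h3
  have h0 := fe_mem 0 (fun y hy => by
    constructor
    · simp
    · simp only [ofReal_zero, zero_mul, zero_div, Complex.zero_re]; positivity)
  have hinv : ∀ z ∈ ball (0 : E) 1,
      (fderiv ℂ (fe 0) z).inverse (fe 0 z) = mk (z 0 * pp (z 0)) (z 1 * P (z 0)) := by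
    intro z hz
    rw [h0.2 z hz]
    simp
  refine ⟨fe 0, h0.1, fe0_not_extreme hε hp hm, ?_⟩
  have hhe : (ball (0 : E) 1).indicator (fun z => (fderiv ℂ (fe 0) z).inverse (fe 0 z)) = hh := by
    funext z
    by_cases hz : z ∈ ball (0 : E) 1
    · rw [Set.indicator_of_mem hz, hinv z hz, hh, Set.indicator_of_mem hz]
    · rw [Set.indicator_of_notMem hz, hh, Set.indicator_of_notMem hz]
  rw [hhe]
  exact hh_extreme (hh_mem h0.1 hinv)

end Pool.Agent.Helper404.Spir
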